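import Pool.Agent.CRW.W2
import Pool.Agent.CRN.A1

/-!
# [CRS] The local chain theorem with local levels
-/

set_option autoImplicit false
open MeasureTheory Set
open Pool.Agent.XA Pool.Agent.CRN Pool.Agent.CRW

namespace Pool.Agent.CRS

/-- `w` is seen at the angle `ψ` above one of the two bodies and is a point of the other one -/
def Seen (K L : Set (ℝ × ℝ)) (ψ : ℝ) (w : ℝ × ℝ) : Prop :=
  (w ∈ K ∧ hs L ψ < lv ψ w) ∨ (w ∈ L ∧ hs K ψ < lv ψ w)

theorem Seen.symm {K L : Set (ℝ × ℝ)} {ψ : ℝ} {w : ℝ × ℝ} (h : Seen K L ψ w) : Seen L K ψ w :=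
  Or.symm h

/-- **Local chain theorem**, with given lower bounds of the levels of the differences in the window. -/
theorem lc' {N : ℕ} (hN : 5 ≤ N) {s : ℕ → ℝ} (hs' : Slopes N s) {K L : Set (ℝ × ℝ)}
    (hK : IsBody K) (hL : IsBody L) {i0 : ℤ} {c : ℤ → ℝ}
    (span : ang N s (i0 + 164) < ang N s i0 + Real.pi)
    (hdir : ∀ i, 0 ≤ i → i ≤ 164 → Dir K L (ang N s (i0 + i)) (c i))
    (hc : ∀ i, 0 ≤ i → i ≤ 164 → ∀ ψ ∈ Ioo (ang N s i0) (ang N s (i0 + 164)), ∀ w,
      Seen K L ψ w → c i < lv (ang N s (i0 + i)) w) :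
    ∀ ψ ∈ Icc (ang N s i0) (ang N s (i0 + 164)), hs K ψ = hs L ψ := by
  intro ψ hψ
  by_contra hne
  have hN0 : 0 < N := by omega
  have hmono := ang_strictMono hN0 hs'
  obtain ⟨f, e, AL, Mi, z, l0, hcomb, hl0, hl0'⟩ := exists_lcomb hK hL (φ := fun i => ang N s (i0 + i))
    (M := 164) (by norm_num) (fun i j hij => hmono (by omega)) (by simpa using span)
    (fun i h0 h1 => (hdir i h0 h1).top)
    (by
      intro i h0 h1 α β hA hα hβ
      refine ⟨c i, hdir i h0 h1, fun w hw => ?_⟩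
      have hα' : ang N s i0 ≤ α := by simpa using hα
      rcases hw with ⟨h2, χ, h3, h4⟩ | ⟨h2, χ, h3, h4⟩
      · exact hc i h0 h1 χ ⟨hα'.trans_lt h3.1, h3.2.trans_le hβ⟩ w (Or.inl ⟨interior_subset h2, h4⟩)
      · exact hc i h0 h1 χ ⟨hα'.trans_lt h3.1, h3.2.trans_le hβ⟩ w
          (Or.inr ⟨interior_subset h2, h4⟩)) (by simpa using hψ) hne
  obtain ⟨i, b, m, hi0, hiM, hb, hm, hodd, hm4, hwin⟩ := hcomb.window 20 (by norm_num) hl0 hl0'
  obtain ⟨hinj, hH1, σ, hMB⟩ := block_conditions hN hs' (i0 + i)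
  refine propA hinj hH1 σ hMB hm hodd hb hm4 (z := z)
    (c := fun j => -Real.sin (ang N s (i0 + i + ((j : ℕ) : ℤ)))) ?_ ?_
  · intro j
    exact neg_ne_zero.2 (ang_trig N s _).1
  · intro j l h1 h2
    obtain ⟨x, hx0, hx⟩ := hwin j l h1 (by push_cast; exact h2)
    refine ⟨x, hx0, ?_⟩
    rw [hx, ← add_assoc, pt_ang]
    rfl

/-- extrapolation: `v` is not below `w` at `b`, not above at `c`, hence not below at `a < b < c` -/
theorem extra_left {a b c : ℝ} (hab : a ≤ b) (hbc : b < c) (hac : c < a + Real.pi) {d : ℝ × ℝ}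
    (h1 : 0 ≤ lv b d) (h2 : lv c d ≤ 0) : 0 ≤ lv a d := by
  have h3 := lv_comb a b c d
  have s1 := sin_pos' hbc (by linarith)
  have s2 : 0 < Real.sin (c - a) := sin_pos' (lt_of_le_of_lt hab hbc) hac
  have s3 : 0 ≤ Real.sin (b - a) :=
    Real.sin_nonneg_of_nonneg_of_le_pi (by linarith) (by linarith)
  have h4 := mul_nonneg s2.le h1
  have h5 := mul_nonpos_of_nonneg_of_nonpos s3 h2
  have h6 : 0 ≤ Real.sin (c - b) * lv a d := by linarith
  exact nonneg_of_mul_nonneg_right h6 s1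

theorem extra_left' {a b c : ℝ} (hab : a ≤ b) (hbc : b < c) (hac : c < a + Real.pi) {d : ℝ × ℝ}
    (h1 : 0 < lv b d) (h2 : lv c d ≤ 0) : 0 < lv a d := by
  have h3 := lv_comb a b c d
  have s1 := sin_pos' hbc (by linarith)
  have s2 : 0 < Real.sin (c - a) := sin_pos' (lt_of_le_of_lt hab hbc) hac
  have s3 : 0 ≤ Real.sin (b - a) :=
    Real.sin_nonneg_of_nonneg_of_le_pi (by linarith) (by linarith)
  have h4 := mul_pos s2 h1
  have h5 := mul_nonpos_of_nonneg_of_nonpos s3 h2
  have h6 : 0 < Real.sin (c - b) * lv a d := by linarith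
  exact pos_of_mul_pos_right h6 s1.le

theorem extra_right {a b c : ℝ} (hab : a < b) (hbc : b ≤ c) (hac : c < a + Real.pi) {d : ℝ × ℝ}
    (h1 : 0 ≤ lv b d) (h2 : lv a d ≤ 0) : 0 ≤ lv c d := by
  have h3 := lv_comb a b c d
  have s1 := sin_pos' hab (by linarith)
  have s2 : 0 < Real.sin (c - a) := sin_pos' (lt_of_lt_of_le hab hbc) hac
  have s3 : 0 ≤ Real.sin (c - b) :=
    Real.sin_nonneg_of_nonneg_of_le_pi (by linarith) (by linarith)
  have h4 := mul_nonneg s2.le h1
  have h5 := mul_nonpos_of_nonneg_of_nonpos s3 h2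
  have h6 : 0 ≤ Real.sin (b - a) * lv c d := by linarith
  exact nonneg_of_mul_nonneg_right h6 s1

theorem extra_right' {a b c : ℝ} (hab : a < b) (hbc : b ≤ c) (hac : c < a + Real.pi) {d : ℝ × ℝ}
    (h1 : 0 < lv b d) (h2 : lv a d ≤ 0) : 0 < lv c d := by
  have h3 := lv_comb a b c d
  have s1 := sin_pos' hab (by linarith)
  have s2 : 0 < Real.sin (c - a) := sin_pos' (lt_of_lt_of_le hab hbc) hac
  have s3 : 0 ≤ Real.sin (c - b) :=
    Real.sin_nonneg_of_nonneg_of_le_pi (by linarith) (by linarith)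
  have h4 := mul_pos s2 h1
  have h5 := mul_nonpos_of_nonneg_of_nonpos s3 h2
  have h6 : 0 < Real.sin (b - a) * lv c d := by linarith
  exact pos_of_mul_pos_right h6 s1.le

/-- **Levels of the differences in a window**: they are above the extreme points of `K` just outside the window.
`a < x < y < b` are angles with equal support values; `za`, `zb` are extreme points of `K` at `a` and `b`. -/
theorem seen_level {K L : Set (ℝ × ℝ)} (hK : IsBody K) (hL : IsBody L) {a x y b : ℝ}
    (hax : a < x) (hxy : x < y) (hyb : y < b) (hab : b < a + Real.pi)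
    (ea : hs K a = hs L a) (ex : hs K x = hs L x) (ey : hs K y = hs L y) (eb : hs K b = hs L b)
    {za zb : ℝ × ℝ} (hza : za ∈ K) (eza : lv a za = hs K a) (hzb : zb ∈ K)
    (ezb : lv b zb = hs K b) {θ ψ m : ℝ} (hθ : θ ∈ Icc x y) (hψ : ψ ∈ Ioo x y) {w : ℝ × ℝ}
    (hw : Seen K L ψ w) (h1 : m ≤ lv θ za) (h2 : m ≤ lv θ zb) : m < lv θ w := by
  rcases hw with ⟨hwK, hlt⟩ | ⟨hwL, hlt⟩
  · rcases le_total θ ψ with hc | hc
    · obtain ⟨l, hl, el⟩ := exists_lv_eq_hs hL.compact (hL.nonempty.mono interior_subset) y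
      have g1 := lv_le_hs hL.compact ψ hl
      have g2 := lv_le_hs hK.compact y hwK
      have g3 : 0 < lv θ (w - l) := extra_left' hc hψ.2 (by linarith [hθ.1]) (by
        rw [lv_sub]; linarith) (by rw [lv_sub]; linarith)
      have g4 := lv_le_hs hK.compact y hzb
      have g5 := lv_le_hs hL.compact b hl
      have g6 : 0 ≤ lv θ (l - zb) := extra_left hθ.2 hyb (by linarith [hθ.1]) (by
        rw [lv_sub]; linarith) (by rw [lv_sub]; linarith)
      rw [lv_sub] at g3 g6
      linarith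
    · obtain ⟨l, hl, el⟩ := exists_lv_eq_hs hL.compact (hL.nonempty.mono interior_subset) x
      have g1 := lv_le_hs hL.compact ψ hl
      have g2 := lv_le_hs hK.compact x hwK
      have g3 : 0 < lv θ (w - l) := extra_right' hψ.1 hc (by linarith [hθ.2]) (by
        rw [lv_sub]; linarith) (by rw [lv_sub]; linarith)
      have g4 := lv_le_hs hK.compact x hza
      have g5 := lv_le_hs hL.compact a hl
      have g6 : 0 ≤ lv θ (l - za) := extra_right hax hθ.1 (by linarith [hθ.2]) (by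
        rw [lv_sub]; linarith) (by rw [lv_sub]; linarith)
      rw [lv_sub] at g3 g6
      linarith
  · rcases le_total θ ψ with hc | hc
    · have g1 := lv_le_hs hK.compact ψ hzb
      have g2 := lv_le_hs hL.compact b hwL
      have g3 : 0 < lv θ (w - zb) := extra_left' hc (hψ.2.trans hyb) (by linarith [hθ.1]) (by
        rw [lv_sub]; linarith) (by rw [lv_sub]; linarith)
      rw [lv_sub] at g3
      linarith
    · have g1 := lv_le_hs hK.compact ψ hza
      have g2 := lv_le_hs hL.compact a hwL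
      have g3 : 0 < lv θ (w - za) := extra_right' (hax.trans hψ.1) hc (by linarith [hθ.2]) (by
        rw [lv_sub]; linarith) (by rw [lv_sub]; linarith)
      rw [lv_sub] at g3
      linarith

end Pool.Agent.CRS
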