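import Pool.Agent.CRS.S9
import Pool.Agent.CRN.D1
import Pool.Agent.XA.T3
import Pool.Agent.XA.V7
import Pool.Agent.XA.V8
import Pool.Agent.XA.Z5

/-!
# [CRS] One finite set of directions for all annuli with a spot of comparable thickness
-/

set_option autoImplicit false
open MeasureTheory Set
open Pool.Agent.XA Pool.Agent.CRN Pool.Agent.CRW

namespace Pool.Agent.CRS

/-- the annulus `K \ int P` has a `δ`-spot: `P` contains a disc of radius `δ * diam K`, and there are an arc of
angles `[α, α + δ]`, a point `V` and a radius `ρ > 0` (of arbitrary size) such that all angles of the arc are outer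
normals of `K` and of `P` at points at distance `≤ ρ / δ` from `V`, those of `P` being at distance `≥ ρ` from the
complement of `K` -/
def Spot (δ : ℝ) (K P : Set (EuclideanSpace ℝ (Fin 2))) : Prop :=
  (∃ x, Metric.closedBall x (δ * Metric.diam K) ⊆ P) ∧
  ∃ (α ρ : ℝ) (V : EuclideanSpace ℝ (Fin 2)), 0 < ρ ∧ ∀ ψ ∈ Icc α (α + δ), ∃ x z,
    NormalAt K x ψ ∧ NormalAt P z ψ ∧ Metric.closedBall z ρ ⊆ K ∧
      dist x V ≤ ρ / δ ∧ dist z V ≤ ρ / δ

theorem lv_le_dist (χ : ℝ) (a b : ℝ × ℝ) : lv χ (a - b) ≤ dist (toE a) (toE b) := by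
  rw [t3_dist]
  apply Real.le_sqrt_of_sq_le
  show ((a.1 - b.1) * Real.cos χ + (a.2 - b.2) * Real.sin χ) ^ 2 ≤ _
  nlinarith [Real.sin_sq_add_cos_sq χ,
    sq_nonneg ((a.1 - b.1) * Real.sin χ - (a.2 - b.2) * Real.cos χ)]

theorem main (δ : ℝ) (hδ : 0 < δ) :
    ∃ U : Finset (EuclideanSpace ℝ (Fin 2)), (∀ u ∈ U, u ≠ 0) ∧
      ∀ K P L Q : Set (EuclideanSpace ℝ (Fin 2)), Annulus K P → Annulus L Q →
        Spot δ K P →
        (∀ u ∈ U, SameXray (K \ interior P) (L \ interior Q) u) → K = L ∧ P = Q := by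
  classical
  have hpi := Real.pi_pos
  have hpi4 : Real.pi ≤ 4 := Real.pi_le_four
  obtain ⟨N, hN⟩ := exists_nat_gt (max 5 (3200000 / δ ^ 5))
  have hN1 : (5 : ℝ) < N := (le_max_left _ _).trans_lt hN
  have hN2 : 3200000 / δ ^ 5 < (N : ℝ) := (le_max_right _ _).trans_lt hN
  have hN0 : (0 : ℝ) < N := by linarith
  have hN5 : 5 ≤ N := by
    have : (5 : ℝ) ≤ N := by linarith
    exact_mod_cast this
  have hε0 : 0 < 2 * Real.pi / N := by positivity
  have hε8 : 2 * Real.pi / N ≤ 8 / N := by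
    apply div_le_div_of_nonneg_right _ hN0.le
    linarith
  have n5 : 400000 * (2 * Real.pi / N) ≤ δ ^ 5 := by
    have h4 : 0 < δ ^ 5 := pow_pos hδ 5
    rw [div_lt_iff₀ h4] at hN2
    have h5 : 400000 * (8 / (N : ℝ)) ≤ δ ^ 5 := by
      rw [← mul_div_assoc, div_le_iff₀ hN0]
      linarith
    linarith
  obtain ⟨s, hs⟩ := exists_slopes N
  refine ⟨(Finset.range N).image (fun r => (!₂[1, s r] : EuclideanSpace ℝ (Fin 2))), ?_, ?_⟩
  · intro u hu
    obtain ⟨r, -, rfl⟩ := Finset.mem_image.1 hu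
    exact z5_ne (s r)
  · intro K P L Q hK hL ht hX
    obtain ⟨⟨x, hx⟩, α, ρ, V, hρ, hα⟩ := ht
    obtain ⟨x₀, rfl⟩ := toE_surjective x
    obtain ⟨V, rfl⟩ := toE_surjective V
    have hKb := hK.bK
    have hD : 0 < Metric.diam K := diam_pos hK.compact hKb
    have hR : 0 < δ * Metric.diam K := mul_pos hδ hD
    have key : Lp N s (toE ⁻¹' K) (toE ⁻¹' P) (toE ⁻¹' L) (toE ⁻¹' Q) x₀ V α δ (Metric.diam K)
        (2 * Real.pi / N) ρ :=
      { hN := hN5
        hs' := hs
        bK := hKb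
        bP := hK.bP
        bL := hL.bK
        bQ := hL.bP
        hPK := hK.sub
        hQL := hL.sub
        hX := by
          intro i c
          obtain ⟨h0, hc⟩ := ang_trig N s i
          have hr : (i % (N : ℤ)).toNat < N := by
            have h1 := Int.emod_nonneg i (show (N : ℤ) ≠ 0 by omega)
            have h2 := Int.emod_lt_of_pos i (show (0 : ℤ) < N by omega)
            omega
          have h3 := xray_toE h0 hc
            (hX _ (Finset.mem_image.2 ⟨_, Finset.mem_range.2 hr, rfl⟩)) c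
          rw [interior_toE, interior_toE, ← Set.preimage_sdiff, ← Set.preimage_sdiff]
          exact h3
        hw := width_le_diam hK.compact hKb
        disc := fun ψ => deep_toE hK.bP.compact hR.le hx ψ
        topK := by
          intro ψ hψ
          obtain ⟨x, z, hx, hz, hz', dx, dz⟩ := hα ψ hψ
          obtain ⟨y, rfl⟩ := toE_surjective x
          exact ⟨y, hx.1, hx.hs_eq hKb.compact, fun χ => (lv_le_dist χ y V).trans dx⟩
        topP := by
          intro ψ hψ
          obtain ⟨x, z, hx, hz, hz', dx, dz⟩ := hα ψ hψ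
          obtain ⟨w, rfl⟩ := toE_surjective z
          exact ⟨w, hz.1, hz.hs_eq hK.bP.compact, fun χ => (lv_le_dist χ w V).trans dz,
            deep_toE hKb.compact hρ.le hz' ψ, fun t ht => disc_slice hz' _ (by linarith)⟩
        δ0 := hδ
        ε0 := hε0
        ρ0 := hρ
        hε := rfl
        n5 := n5 }
    obtain ⟨h1, h2⟩ := key.main
    exact ⟨eq_of_toE h1, eq_of_toE h2⟩

end Pool.Agent.CRS
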