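import Pool.Agent.CRS.S1
import Pool.Agent.CRW.W6

/-!
# [CRS] The inner bodies in a fine window, with local levels
-/

set_option autoImplicit false
open MeasureTheory Set
open Pool.Agent.XA Pool.Agent.CRN Pool.Agent.CRW

namespace Pool.Agent.CRS

/-- the data of a fine window `[x, y]` -/
structure Bw (P Q : Set (ℝ × ℝ)) (x y d η κ : ℝ) (x₀ : ℝ × ℝ) : Prop where
  bP : IsBody P
  bQ : IsBody Q
  xy : x < y
  yη : y ≤ x + η
  ηπ : η < Real.pi
  dd : ∀ v ∈ P ∪ Q, ∀ w ∈ P ∪ Q, ∀ ψ, lv ψ (v - w) ≤ d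
  κ0 : 0 < κ
  xP : x₀ ∈ P
  xQ : x₀ ∈ Q
  low : ∀ ψ ∈ Icc x y, lv ψ x₀ + κ + 2 * (d * η) ≤ hs P ψ
  low' : ∀ ψ ∈ Icc x y, lv ψ x₀ + κ + 2 * (d * η) ≤ hs Q ψ

variable {P Q : Set (ℝ × ℝ)} {x y d η κ : ℝ} {x₀ : ℝ × ℝ}

theorem Bw.symm (h : Bw P Q x y d η κ x₀) : Bw Q P x y d η κ x₀ :=
  ⟨h.bQ, h.bP, h.xy, h.yη, h.ηπ, fun v hv w hw => h.dd v hv.symm w hw.symm, h.κ0, h.xQ, h.xP,
    h.low', h.low⟩

theorem Bw.d0 (h : Bw P Q x y d η κ x₀) : 0 ≤ d := by
  have := h.dd x₀ (Or.inl h.xP) x₀ (Or.inl h.xP) 0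
  rw [sub_self] at this
  simpa [lv] using this

theorem Bw.η0 (h : Bw P Q x y d η κ x₀) : 0 < η := by linarith [h.xy, h.yη]

theorem Bw.dη (h : Bw P Q x y d η κ x₀) : 0 ≤ d * η := mul_nonneg h.d0 h.η0.le

theorem Bw.var (h : Bw P Q x y d η κ x₀) {v w : ℝ × ℝ} (hv : v ∈ P ∪ Q) (hw : w ∈ P ∪ Q)
    {θ θ' : ℝ} (hθ : θ ∈ Icc x y) (hθ' : θ' ∈ Icc x y) :
    lv θ v - lv θ w - d * η ≤ lv θ' v - lv θ' w := by
  have h1 := lv_var (v := v - w) (h.dd v hv w hw) θ' θ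
  rw [lv_sub, lv_sub] at h1
  have h2 : |θ' - θ| ≤ η := by
    rw [abs_le]
    constructor <;> linarith [hθ.1, hθ.2, hθ'.1, hθ'.2, h.yη]
  have h3 := mul_le_mul_of_nonneg_left h2 h.d0
  linarith

theorem Bw.mx (h : Bw P Q x y d η κ x₀) : x ∈ Icc x y := ⟨le_refl _, h.xy.le⟩

theorem Bw.my (h : Bw P Q x y d η κ x₀) : y ∈ Icc x y := ⟨h.xy.le, le_refl _⟩

/-- extreme points are in the cone -/
theorem Bw.top_mem (h : Bw P Q x y d η κ x₀) {θ : ℝ} (hθ : θ ∈ Icc x y) {z : ℝ × ℝ} (hz : z ∈ P)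
    (ez : lv θ z = hs P θ) : z ∈ P ∩ Rp x y x₀ := by
  have hd := h.dη
  have hκ := h.κ0
  have h1 := h.low θ hθ
  have h2 := h.var (Or.inl hz) (Or.inl h.xP) hθ h.mx
  have h3 := h.var (Or.inl hz) (Or.inl h.xP) hθ h.my
  exact ⟨hz, by linarith, by linarith⟩

theorem Bw.hs_Rp (h : Bw P Q x y d η κ x₀) {θ : ℝ} (hθ : θ ∈ Icc x y) :
    hs (P ∩ Rp x y x₀) θ = hs P θ := by
  obtain ⟨z, hz, ez⟩ := exists_lv_eq_hs h.bP.compact (h.bP.nonempty.mono interior_subset) θ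
  have hz' := h.top_mem hθ hz ez
  refine le_antisymm (hs_le ⟨z, hz'⟩ fun w hw => lv_le_hs h.bP.compact θ hw.1) ?_
  rw [← ez]
  exact lv_le_hs (h.bP.compact.inter_right (Rp_closed x y x₀)) θ hz'

theorem Bw.body (h : Bw P Q x y d η κ x₀) : IsBody (P ∩ Rp x y x₀) := by
  have hd := h.dη
  have hκ := h.κ0
  obtain ⟨z, hz, ez⟩ := exists_lv_eq_hs h.bP.compact (h.bP.nonempty.mono interior_subset) x
  have h1 := h.low x h.mx
  have h2 := h.var (Or.inl hz) (Or.inl h.xP) h.mx h.my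
  exact isBody_inter_Rp h.bP hz (by linarith) (by linarith)

theorem Bw.slice (h : Bw P Q x y d η κ x₀) {θ c : ℝ} (hθ : θ ∈ Icc x y)
    (hc : lv θ x₀ + d * η ≤ c) :
    {t : ℝ | pt θ c t ∈ P ∩ Rp x y x₀} = {t : ℝ | pt θ c t ∈ P} := by
  ext t
  refine ⟨fun ht => ht.1, fun ht => ⟨ht, ?_, ?_⟩⟩
  · have h2 := h.var (Or.inl ht) (Or.inl h.xP) hθ h.mx
    rw [lv_pt] at h2
    linarith
  · have h2 := h.var (Or.inl ht) (Or.inl h.xP) hθ h.my
    rw [lv_pt] at h2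
    linarith

/-- **The inner bodies have the same support function in the fine window.** -/
theorem pq_block {N : ℕ} (hN : 5 ≤ N) {s : ℕ → ℝ} (hs' : Slopes N s) {i0 : ℤ}
    (h : Bw P Q (ang N s i0) (ang N s (i0 + 166)) d η κ x₀)
    (top : ∀ i, 0 ≤ i → i ≤ 166 → hs P (ang N s (i0 + i)) = hs Q (ang N s (i0 + i)))
    {za zb : ℝ × ℝ} (hza : za ∈ P) (eza : lv (ang N s i0) za = hs P (ang N s i0)) (hzb : zb ∈ P)
    (ezb : lv (ang N s (i0 + 166)) zb = hs P (ang N s (i0 + 166)))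
    (hdrop : ∀ i, 1 ≤ i → i ≤ 165 → hs P (ang N s (i0 + i)) - κ / 2 ≤ lv (ang N s (i0 + i)) za ∧
      hs P (ang N s (i0 + i)) - κ / 2 ≤ lv (ang N s (i0 + i)) zb)
    (hvis : ∀ i, 1 ≤ i → i ≤ 165 → ∀ c, hs P (ang N s (i0 + i)) - κ < c →
      volume {t : ℝ | pt (ang N s (i0 + i)) c t ∈ interior P} =
        volume {t : ℝ | pt (ang N s (i0 + i)) c t ∈ interior Q}) :
    ∀ ψ ∈ Icc (ang N s (i0 + 1)) (ang N s (i0 + 165)), hs P ψ = hs Q ψ := by
  have hN0 : 0 < N := by omega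
  have hsm := ang_strictMono hN0 hs'
  have hmono := hsm.monotone
  have hκ := h.κ0
  have hd := h.dη
  have mem : ∀ i : ℤ, 0 ≤ i → i ≤ 166 →
      ang N s (i0 + i) ∈ Icc (ang N s i0) (ang N s (i0 + 166)) := fun i h0 h1 =>
    ⟨hmono (by omega), hmono (by omega)⟩
  have hspan : ang N s (i0 + 166) < ang N s i0 + Real.pi := by linarith [h.yη, h.ηπ]
  have e165 : i0 + 1 + 164 = i0 + 165 := by ring
  have hsub : ∀ ψ ∈ Icc (ang N s (i0 + 1)) (ang N s (i0 + 165)),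
      ψ ∈ Icc (ang N s i0) (ang N s (i0 + 166)) := fun ψ hψ =>
    ⟨(hmono (by omega)).trans hψ.1, hψ.2.trans (hmono (by omega))⟩
  have key := lc' hN hs' h.body h.symm.body (i0 := i0 + 1)
    (c := fun i => hs P (ang N s (i0 + 1 + i)) - κ / 2)
    (by
      rw [e165]
      have h1 : ang N s (i0 + 165) ≤ ang N s (i0 + 166) := hmono (by omega)
      have h2 : ang N s i0 ≤ ang N s (i0 + 1) := hmono (by omega)
      linarith)
    (by
      intro i h0 h1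
      have e : i0 + 1 + i = i0 + (1 + i) := by ring
      rw [e]
      have hi := mem (1 + i) (by omega) (by omega)
      refine ⟨h.body, h.symm.body, ?_, ?_, ?_⟩
      · rw [h.hs_Rp hi, h.symm.hs_Rp hi]
        exact top (1 + i) (by omega) (by omega)
      · rw [hs_bot_Rp h.bP.compact h.xP h.xy hspan hi, hs_bot_Rp h.bQ.compact h.xQ h.xy hspan hi]
      · intro c hc g1 g2
        have hlow := h.low _ hi
        rw [h.hs_Rp hi] at g2
        rw [h.slice hi (by linarith), h.symm.slice hi (by linarith)]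
        have k1 := neg_hs_le_lv h.bP.compact (ang N s (i0 + (1 + i))) h.xP
        have k2 := neg_hs_le_lv h.bQ.compact (ang N s (i0 + (1 + i))) h.xQ
        rw [← vol_interior_eq h.bP (by linarith) g2, ← vol_interior_eq h.bQ (by linarith)
          (by rw [← top (1 + i) (by omega) (by omega)]; exact g2)]
        exact hvis (1 + i) (by omega) (by omega) c (by linarith))
    (by
      intro i h0 h1 ψ hψ w hw
      have e : i0 + 1 + i = i0 + (1 + i) := by ring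
      rw [e165] at hψ
      have hi := mem (1 + i) (by omega) (by omega)
      have hψ' := hsub ψ ⟨hψ.1.le, hψ.2.le⟩
      have ha := h.top_mem h.mx hza eza
      have hb := h.top_mem h.my hzb ezb
      have t1 : ∀ j : ℤ, 0 ≤ j → j ≤ 166 → hs (P ∩ Rp (ang N s i0) (ang N s (i0 + 166)) x₀)
          (ang N s (i0 + j)) = hs (Q ∩ Rp (ang N s i0) (ang N s (i0 + 166)) x₀)
          (ang N s (i0 + j)) := by
        intro j j0 j1
        rw [h.hs_Rp (mem j j0 j1), h.symm.hs_Rp (mem j j0 j1)]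
        exact top j j0 j1
      have g1 := hdrop (1 + i) (by omega) (by omega)
      have t0 := t1 0 (le_refl _) (by norm_num)
      rw [add_zero] at t0
      show hs P (ang N s (i0 + 1 + i)) - κ / 2 < lv (ang N s (i0 + 1 + i)) w
      rw [e]
      refine seen_level h.body h.symm.body (a := ang N s i0) (x := ang N s (i0 + 1))
        (y := ang N s (i0 + 165)) (b := ang N s (i0 + 166)) (hsm (by omega)) (hsm (by omega))
        (hsm (by omega)) hspan t0 (t1 1 (by norm_num) (by norm_num))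
        (t1 165 (by norm_num) (by norm_num)) (t1 166 (by norm_num) (le_refl _)) ha ?_ hb ?_
        (θ := ang N s (i0 + (1 + i))) (ψ := ψ) ⟨hmono (by omega), hmono (by omega)⟩ hψ hw g1.1 g1.2
      · rw [h.hs_Rp h.mx]; exact eza
      · rw [h.hs_Rp h.my]; exact ezb)
  intro ψ hψ
  have h1 := key ψ (by rw [e165]; exact hψ)
  rwa [h.hs_Rp (hsub ψ hψ), h.symm.hs_Rp (hsub ψ hψ)] at h1

end Pool.Agent.CRS
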