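import Pool.Agent.CRS.S1
import Pool.Agent.CRN.C1
import Pool.Agent.XA.V6

/-!
# [CRS] Chords of the two outer bodies near the thick place
-/

set_option autoImplicit false
open MeasureTheory Set
open Pool.Agent.XA Pool.Agent.CRN Pool.Agent.CRW

namespace Pool.Agent.CRS

theorem tg_eq_lv (θ : ℝ) (w : ℝ × ℝ) : tg θ w = lv (θ + Real.pi / 2) w := by
  simp only [tg, lv, Real.cos_add_pi_div_two, Real.sin_add_pi_div_two]
  ring

theorem lv_le_abs (χ θ : ℝ) (v : ℝ × ℝ) : lv χ v ≤ |lv θ v| + |tg θ v| := by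
  rw [lv_eq χ θ v]
  have h1 : lv θ v * Real.cos (χ - θ) ≤ |lv θ v| := by
    refine (le_abs_self _).trans ?_
    rw [abs_mul]
    exact mul_le_of_le_one_right (abs_nonneg _) (Real.abs_cos_le_one _)
  have h2 : tg θ v * Real.sin (χ - θ) ≤ |tg θ v| := by
    refine (le_abs_self _).trans ?_
    rw [abs_mul]
    exact mul_le_of_le_one_right (abs_nonneg _) (Real.abs_sin_le_one _)
  linarith

/-- the data: `a < θ < b` are S-angles at distance `≥ σ` from `θ`, `z`, `za`, `zb` are extreme points of `K` at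
`θ`, `a`, `b` at distances `≤ r`, and `x₀` is the centre of a disc of radius `δ D` in `K` -/
structure Dl (K L : Set (ℝ × ℝ)) (x₀ z za zb : ℝ × ℝ) (a θ b δ D ρ ε σ r R s₀ : ℝ) : Prop where
  bK : IsBody K
  bL : IsBody L
  D0 : 0 < D
  ρ0 : 0 < ρ
  ε0 : 0 < ε
  s0 : 0 < s₀
  disc : ∀ ψ, lv ψ x₀ + δ * D ≤ hs K ψ
  xK : x₀ ∈ K
  dd : ∀ x ∈ K ∪ L, ∀ y ∈ K ∪ L, ∀ ψ, lv ψ (x - y) ≤ 2 * D
  near : ∀ ψ, ∃ j, j ≤ ψ ∧ ψ ≤ j + ε ∧ hs K j = hs L j
  near' : ∀ ψ, ∃ j, ψ ≤ j ∧ j ≤ ψ + ε ∧ hs K j = hs L j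
  top : hs K θ = hs L θ
  ea : hs K a = hs L a
  eb : hs K b = hs L b
  σ0 : 0 < σ
  aθ : a + σ ≤ θ
  θb : θ + σ ≤ b
  aθ' : θ ≤ a + Real.pi / 2
  θb' : b ≤ θ + Real.pi / 2
  hz : z ∈ K
  ez : lv θ z = hs K θ
  eza : lv a za = hs K a
  ezb : lv b zb = hs K b
  hza : ∀ χ, lv χ (za - z) ≤ r
  hzb : ∀ χ, lv χ (zb - z) ≤ r
  hR : r + ρ ≤ R * Real.sin σ
  low : lv θ x₀ ≤ hs K θ - 3 * ρ / 4
  s1 : s₀ ≤ 1 / 2
  s2 : 8 * (R * s₀) ≤ 3 * ρ
  s3 : 2 * s₀ ≤ δ
  s4 : 2 * ε ≤ s₀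

variable {K L : Set (ℝ × ℝ)} {x₀ z za zb : ℝ × ℝ} {a θ b δ D ρ ε σ r R s₀ : ℝ}

theorem Dl.R0 (h : Dl K L x₀ z za zb a θ b δ D ρ ε σ r R s₀) : 0 < R := by
  have h1 : 0 < Real.sin σ := Real.sin_pos_of_pos_of_lt_pi h.σ0 (by
    linarith [h.aθ, h.aθ', Real.pi_pos])
  have h2 := h.hza 0
  have h3 := h.hza (0 + Real.pi)
  rw [lv_add_pi] at h3
  have h4 : 0 < R * Real.sin σ := by linarith [h.hR, h.ρ0]
  exact pos_of_mul_pos_left h4 h1.le

/-- the region near the thick place -/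
theorem Dl.region (h : Dl K L x₀ z za zb a θ b δ D ρ ε σ r R s₀) {w : ℝ × ℝ}
    (h1 : lv a w ≤ hs K a) (h2 : lv b w ≤ hs K b) (h3 : hs K θ - 3 * ρ / 4 ≤ lv θ w) :
    |tg θ (w - z)| ≤ R := by
  have hpi := Real.pi_pos
  have hσ : 0 < Real.sin σ := Real.sin_pos_of_pos_of_lt_pi h.σ0 (by
    linarith [h.aθ, h.aθ', Real.pi_pos])
  have hρ := h.ρ0
  have hR := h.hR
  have hR0 := h.R0
  have hlow : -(3 * ρ / 4) ≤ lv θ (w - z) := by
    rw [lv_sub, h.ez]
    linarith
  rw [abs_le]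
  constructor
  · have g1 : lv a (w - z) ≤ r := by
      have := h.hza a
      rw [lv_sub] at this ⊢
      rw [h.eza] at this
      linarith
    have e := lv_eq a θ (w - z)
    have hs1 : Real.sin σ ≤ Real.sin (θ - a) :=
      Real.sin_le_sin_of_le_of_le_pi_div_two (by linarith [h.σ0]) (by linarith [h.aθ'])
        (by linarith [h.aθ])
    have hc0 : 0 ≤ Real.cos (a - θ) :=
      Real.cos_nonneg_of_neg_pi_div_two_le_of_le (by linarith [h.aθ']) (by linarith [h.aθ, h.σ0])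
    have hc1 := Real.cos_le_one (a - θ)
    have e2 : Real.sin (a - θ) = -Real.sin (θ - a) := by rw [← Real.sin_neg, neg_sub]
    rw [e2] at e
    have g2 : -(3 * ρ / 4) ≤ lv θ (w - z) * Real.cos (a - θ) := by
      have h5 : -(3 * ρ / 4) * Real.cos (a - θ) ≤ lv θ (w - z) * Real.cos (a - θ) :=
        mul_le_mul_of_nonneg_right hlow hc0
      have h6 : -(3 * ρ / 4) * 1 ≤ -(3 * ρ / 4) * Real.cos (a - θ) := by
        have := mul_le_mul_of_nonneg_left hc1 (by linarith : 0 ≤ 3 * ρ / 4)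
        linarith
      linarith
    by_contra hc
    push Not at hc
    have g3 : R * Real.sin (θ - a) < -tg θ (w - z) * Real.sin (θ - a) :=
      mul_lt_mul_of_pos_right (by linarith) (hσ.trans_le hs1)
    have g4 : R * Real.sin σ ≤ R * Real.sin (θ - a) := mul_le_mul_of_nonneg_left hs1 hR0.le
    linarith
  · have g1 : lv b (w - z) ≤ r := by
      have := h.hzb b
      rw [lv_sub] at this ⊢
      rw [h.ezb] at this
      linarith
    have e := lv_eq b θ (w - z)
    have hs1 : Real.sin σ ≤ Real.sin (b - θ) :=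
      Real.sin_le_sin_of_le_of_le_pi_div_two (by linarith [h.σ0]) (by linarith [h.θb'])
        (by linarith [h.θb])
    have hc0 : 0 ≤ Real.cos (b - θ) :=
      Real.cos_nonneg_of_neg_pi_div_two_le_of_le (by linarith [h.θb, h.σ0]) (by linarith [h.θb'])
    have hc1 := Real.cos_le_one (b - θ)
    have g2 : -(3 * ρ / 4) ≤ lv θ (w - z) * Real.cos (b - θ) := by
      have h5 : -(3 * ρ / 4) * Real.cos (b - θ) ≤ lv θ (w - z) * Real.cos (b - θ) :=
        mul_le_mul_of_nonneg_right hlow hc0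
      have h6 : -(3 * ρ / 4) * 1 ≤ -(3 * ρ / 4) * Real.cos (b - θ) := by
        have := mul_le_mul_of_nonneg_left hc1 (by linarith : 0 ≤ 3 * ρ / 4)
        linarith
      linarith
    by_contra hc
    push Not at hc
    have g3 : R * Real.sin (b - θ) < tg θ (w - z) * Real.sin (b - θ) :=
      mul_lt_mul_of_pos_right hc (hσ.trans_le hs1)
    have g4 : R * Real.sin σ ≤ R * Real.sin (b - θ) := mul_le_mul_of_nonneg_left hs1 hR0.le
    linarith

/-- the left ends of the chords at the level `hs K θ - 3 ρ / 4` -/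
theorem Dl.ext_left (h : Dl K L x₀ z za zb a θ b δ D ρ ε σ r R s₀) {t₀ e : ℝ} (he : 0 < e)
    (hk : pt θ (hs K θ - 3 * ρ / 4) t₀ ∈ K)
    (hm : pt θ (hs K θ - 3 * ρ / 4) (t₀ + e) ∉ K)
    (hl : pt θ (hs K θ - 3 * ρ / 4) (t₀ + 2 * e) ∈ L)
    (hnum : (3 * ρ / 4 + 2 * R) * ε ≤ e * (s₀ / 2)) : False := by
  have hpi := Real.pi_pos
  have hρ := h.ρ0
  have hR0 := h.R0
  have hs0 := h.s0
  have hε := h.ε0
  set c := hs K θ - 3 * ρ / 4 with hc
  set k := pt θ c t₀ with hkdef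
  set m := pt θ c (t₀ + e) with hmdef
  set l := pt θ c (t₀ + 2 * e) with hldef
  have lvm : ∀ χ, lv χ m = (lv χ k + lv χ l) / 2 := by
    intro χ
    rw [hmdef, hkdef, hldef, lv_pt', lv_pt', lv_pt']
    ring
  have lkm : lv θ m = c := lv_pt _ _ _
  have lkk : lv θ k = c := lv_pt _ _ _
  have lml : ∀ χ, lv χ l = lv χ m + e * Real.sin (χ - θ) := by
    intro χ
    rw [hmdef, hldef, lv_pt', lv_pt']
    ring
  have lmk : ∀ χ, lv χ m = lv χ k + e * Real.sin (χ - θ) := by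
    intro χ
    rw [hmdef, hkdef, lv_pt', lv_pt']
    ring
  -- the region
  have hma : lv a m ≤ hs K a := by
    have g1 := lv_le_hs h.bK.compact a hk
    have g2 := lv_le_hs h.bL.compact a hl
    rw [← h.ea] at g2
    rw [lvm]
    linarith
  have hmb : lv b m ≤ hs K b := by
    have g1 := lv_le_hs h.bK.compact b hk
    have g2 := lv_le_hs h.bL.compact b hl
    rw [← h.eb] at g2
    rw [lvm]
    linarith
  have hmR := h.region hma hmb (by rw [lkm])
  -- separation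
  have hbot := neg_hs_le_lv h.bK.compact θ hk
  rw [lkk] at hbot
  obtain ⟨ψ, hψ, hside⟩ := exists_sep_side h.bK hm θ (by rw [lkm, hc]; linarith)
    (by rw [lkm]; exact hbot)
  have hkψ := lv_le_hs h.bK.compact ψ hk
  have hψ1 : 0 < e * Real.sin (ψ - θ) := by
    have := lmk ψ
    linarith
  have hsin0 : 0 < Real.sin (ψ - θ) := pos_of_mul_pos_right hψ1 he.le
  have hψ2 : ψ ∈ Ioo θ (θ + Real.pi) := by
    rcases hside with hq | hq
    · exfalso
      have := Real.sin_neg_of_neg_of_neg_pi_lt (x := ψ - θ) (by linarith [hq.2]) (by linarith [hq.1])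
      linarith
    · exact hq
  -- `s₀ ≤ sin (ψ - θ)`
  have hsin : s₀ ≤ Real.sin (ψ - θ) := by
    by_contra hcon
    push Not at hcon
    rcases le_total (ψ - θ) (Real.pi / 2) with hq | hq
    · have hcos0 : 0 ≤ Real.cos (ψ - θ) :=
        Real.cos_nonneg_of_neg_pi_div_two_le_of_le (by linarith [hψ2.1]) hq
      have hcos : 1 / 2 ≤ Real.cos (ψ - θ) := by
        by_contra hc2
        push Not at hc2
        have h1 := Real.sin_sq_add_cos_sq (ψ - θ)
        have h2 : Real.sin (ψ - θ) < 1 / 2 := by linarith [h.s1]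
        nlinarith
      have hzψ := lv_le_hs h.bK.compact ψ h.hz
      have h1 : 0 < lv ψ (m - z) := by
        rw [lv_sub]
        linarith
      have h2 : lv θ (m - z) = -(3 * ρ / 4) := by
        rw [lv_sub, h.ez, lkm]
        ring
      rw [lv_eq ψ θ (m - z), h2] at h1
      have h3 : tg θ (m - z) * Real.sin (ψ - θ) ≤ R * s₀ :=
        (mul_le_mul_of_nonneg_right ((le_abs_self _).trans hmR) hsin0.le).trans
          (mul_le_mul_of_nonneg_left hcon.le hR0.le)
      have h4 : 3 * ρ / 4 * (1 / 2) ≤ 3 * ρ / 4 * Real.cos (ψ - θ) :=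
        mul_le_mul_of_nonneg_left hcos (by linarith)
      have h5 := h.s2
      linarith
    · have hcos0 : Real.cos (ψ - θ) ≤ 0 :=
        Real.cos_nonpos_of_pi_div_two_le_of_le hq (by linarith [hψ2.2])
      have hx := h.disc ψ
      have h1 : δ * D < lv ψ (m - x₀) := by
        rw [lv_sub]
        linarith
      have h2 : 0 ≤ lv θ (m - x₀) := by
        rw [lv_sub, lkm]
        linarith [h.low]
      have h3 : tg θ (m - x₀) ≤ 2 * D := by
        have g1 := h.dd k (Or.inl hk) x₀ (Or.inl h.xK) (θ + Real.pi / 2)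
        have g2 := h.dd l (Or.inr hl) x₀ (Or.inl h.xK) (θ + Real.pi / 2)
        rw [lv_sub] at g1 g2
        rw [tg_eq_lv, lv_sub, lvm]
        linarith
      rw [lv_eq ψ θ (m - x₀)] at h1
      have h4 : lv θ (m - x₀) * Real.cos (ψ - θ) ≤ 0 := mul_nonpos_of_nonneg_of_nonpos h2 hcos0
      have h5 : tg θ (m - x₀) * Real.sin (ψ - θ) ≤ 2 * D * s₀ :=
        (mul_le_mul_of_nonneg_right h3 hsin0.le).trans
          (mul_le_mul_of_nonneg_left hcon.le (by linarith [h.D0]))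
      have h6 : 2 * s₀ * D ≤ δ * D := mul_le_mul_of_nonneg_right h.s3 h.D0.le
      linarith
  -- the S-angle before `ψ`
  obtain ⟨j, hj1, hj2, hj3⟩ := h.near ψ
  have hsinj : s₀ / 2 ≤ Real.sin (j - θ) := by
    have h1 := Real.abs_sin_sub_sin_le (ψ - θ) (j - θ)
    have h2 : |ψ - θ - (j - θ)| ≤ ε := by
      rw [abs_of_nonneg (by linarith)]
      linarith
    have h3 := (abs_le.1 (h1.trans h2)).2
    linarith [h.s4]
  have hθj : θ < j := by
    by_contra hcon
    push Not at hcon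
    have h1 : ε ≤ 1 := by linarith [h.s4, h.s1]
    have := Real.sin_nonpos_of_nonpos_of_neg_pi_le (x := j - θ) (by linarith)
      (by linarith [hψ2.1, Real.pi_gt_three])
    linarith
  obtain ⟨kj, hkj, ekj⟩ := exists_lv_eq_hs h.bK.compact (h.bK.nonempty.mono interior_subset) j
  have hd1 : lv ψ (kj - m) < 0 := by
    have := lv_le_hs h.bK.compact ψ hkj
    rw [lv_sub]
    linarith
  have hd2 : e * (s₀ / 2) ≤ lv j (kj - m) := by
    have h1 := lv_le_hs h.bL.compact j hl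
    rw [← hj3, lml] at h1
    have h2 := mul_le_mul_of_nonneg_left hsinj he.le
    rw [lv_sub, ekj]
    linarith
  have hd2' : 0 < lv j (kj - m) := lt_of_lt_of_le (mul_pos he (by linarith)) hd2
  have hjψ : j < ψ := by
    refine lt_of_le_of_ne hj1 fun hq => ?_
    rw [hq] at hd2'
    linarith
  have hd3 : 0 < lv θ (kj - m) := extra_left' hθj.le hjψ hψ2.2 hd2' hd1.le
  have hkjθ := lv_le_hs h.bK.compact θ hkj
  have hkjR := h.region (lv_le_hs h.bK.compact a hkj) (lv_le_hs h.bK.compact b hkj) (by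
    rw [lv_sub, lkm] at hd3
    linarith)
  have hB : ∀ χ, lv χ (kj - m) ≤ 3 * ρ / 4 + 2 * R := by
    intro χ
    have h1 := lv_le_abs χ θ (kj - m)
    have h2 : |lv θ (kj - m)| ≤ 3 * ρ / 4 := by
      rw [abs_of_pos hd3, lv_sub, lkm]
      linarith
    have h3 : |tg θ (kj - m)| ≤ 2 * R := by
      have e3 : kj - m = (kj - z) - (m - z) := by abel
      rw [e3, tg_sub]
      have := abs_sub (tg θ (kj - z)) (tg θ (m - z))
      linarith
    linarith
  have h1 := lv_var hB ψ j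
  have h2 : |ψ - j| ≤ ε := by
    rw [abs_of_nonneg (by linarith)]
    linarith
  have h3 : (3 * ρ / 4 + 2 * R) * |ψ - j| ≤ (3 * ρ / 4 + 2 * R) * ε :=
    mul_le_mul_of_nonneg_left h2 (by linarith)
  linarith

end Pool.Agent.CRS
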