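import Pool.Agent.CRS.S3

/-!
# [CRS] Chords of the two outer bodies near the thick place, right ends
-/

set_option autoImplicit false
open MeasureTheory Set
open Pool.Agent.XA Pool.Agent.CRN Pool.Agent.CRW

namespace Pool.Agent.CRS

variable {K L : Set (ℝ × ℝ)} {x₀ z za zb : ℝ × ℝ} {a θ b δ D ρ ε σ r R s₀ : ℝ}

/-- the right ends of the chords at the level `hs K θ - 3 ρ / 4` -/
theorem Dl.ext_right (h : Dl K L x₀ z za zb a θ b δ D ρ ε σ r R s₀) {t₀ e : ℝ} (he : 0 < e)
    (hk : pt θ (hs K θ - 3 * ρ / 4) t₀ ∈ K)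
    (hm : pt θ (hs K θ - 3 * ρ / 4) (t₀ - e) ∉ K)
    (hl : pt θ (hs K θ - 3 * ρ / 4) (t₀ - 2 * e) ∈ L)
    (hnum : (3 * ρ / 4 + 2 * R) * ε ≤ e * (s₀ / 2)) : False := by
  have hpi := Real.pi_pos
  have hρ := h.ρ0
  have hR0 := h.R0
  have hs0 := h.s0
  have hε := h.ε0
  have flip : ∀ χ, Real.sin (χ - θ) = -Real.sin (θ - χ) := fun χ => by
    rw [← Real.sin_neg, neg_sub]
  have flipc : ∀ χ, Real.cos (χ - θ) = Real.cos (θ - χ) := fun χ => by
    rw [← Real.cos_neg, neg_sub]
  set c := hs K θ - 3 * ρ / 4 with hc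
  set k := pt θ c t₀ with hkdef
  set m := pt θ c (t₀ - e) with hmdef
  set l := pt θ c (t₀ - 2 * e) with hldef
  have lvm : ∀ χ, lv χ m = (lv χ k + lv χ l) / 2 := by
    intro χ
    rw [hmdef, hkdef, hldef, lv_pt', lv_pt', lv_pt']
    ring
  have lkm : lv θ m = c := lv_pt _ _ _
  have lkk : lv θ k = c := lv_pt _ _ _
  have lml : ∀ χ, lv χ l = lv χ m + e * Real.sin (θ - χ) := by
    intro χ
    rw [hmdef, hldef, lv_pt', lv_pt', flip]
    ring
  have lmk : ∀ χ, lv χ m = lv χ k + e * Real.sin (θ - χ) := by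
    intro χ
    rw [hmdef, hkdef, lv_pt', lv_pt', flip]
    ring
  -- the region
  have hma : lv a m ≤ hs K a := by
    have g1 := lv_le_hs h.bK.compact a hk
    have g2 := lv_le_hs h.bL.compact a hl
    rw [← h.ea] at g2
    rw [lvm]
    linarith
  have hmb : lv b m ≤ hs K b := by
    have g1 := lv_le_hs h.bK.compact b hk
    have g2 := lv_le_hs h.bL.compact b hl
    rw [← h.eb] at g2
    rw [lvm]
    linarith
  have hmR := h.region hma hmb (by rw [lkm])
  -- separation
  have hbot := neg_hs_le_lv h.bK.compact θ hk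
  rw [lkk] at hbot
  obtain ⟨ψ, hψ, hside⟩ := exists_sep_side h.bK hm θ (by rw [lkm, hc]; linarith)
    (by rw [lkm]; exact hbot)
  have hkψ := lv_le_hs h.bK.compact ψ hk
  have hψ1 : 0 < e * Real.sin (θ - ψ) := by
    have := lmk ψ
    linarith
  have hsin0 : 0 < Real.sin (θ - ψ) := pos_of_mul_pos_right hψ1 he.le
  have hψ2 : ψ ∈ Ioo (θ - Real.pi) θ := by
    rcases hside with hq | hq
    · exact hq
    · exfalso
      have := Real.sin_neg_of_neg_of_neg_pi_lt (x := θ - ψ) (by linarith [hq.1]) (by linarith [hq.2])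
      linarith
  -- `s₀ ≤ sin (θ - ψ)`
  have hsin : s₀ ≤ Real.sin (θ - ψ) := by
    by_contra hcon
    push Not at hcon
    rcases le_total (θ - ψ) (Real.pi / 2) with hq | hq
    · have hcos0 : 0 ≤ Real.cos (θ - ψ) :=
        Real.cos_nonneg_of_neg_pi_div_two_le_of_le (by linarith [hψ2.2]) hq
      have hcos : 1 / 2 ≤ Real.cos (θ - ψ) := by
        by_contra hc2
        push Not at hc2
        have h1 := Real.sin_sq_add_cos_sq (θ - ψ)
        have h2 : Real.sin (θ - ψ) < 1 / 2 := by linarith [h.s1]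
        nlinarith
      have hzψ := lv_le_hs h.bK.compact ψ h.hz
      have h1 : 0 < lv ψ (m - z) := by
        rw [lv_sub]
        linarith
      have h2 : lv θ (m - z) = -(3 * ρ / 4) := by
        rw [lv_sub, h.ez, lkm]
        ring
      rw [lv_eq ψ θ (m - z), h2, flip, flipc] at h1
      have h3 : -tg θ (m - z) * Real.sin (θ - ψ) ≤ R * s₀ :=
        (mul_le_mul_of_nonneg_right ((neg_le_abs _).trans hmR) hsin0.le).trans
          (mul_le_mul_of_nonneg_left hcon.le hR0.le)
      have h4 : 3 * ρ / 4 * (1 / 2) ≤ 3 * ρ / 4 * Real.cos (θ - ψ) :=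
        mul_le_mul_of_nonneg_left hcos (by linarith)
      have h5 := h.s2
      linarith
    · have hcos0 : Real.cos (θ - ψ) ≤ 0 :=
        Real.cos_nonpos_of_pi_div_two_le_of_le hq (by linarith [hψ2.1])
      have hx := h.disc ψ
      have h1 : δ * D < lv ψ (m - x₀) := by
        rw [lv_sub]
        linarith
      have h2 : 0 ≤ lv θ (m - x₀) := by
        rw [lv_sub, lkm]
        linarith [h.low]
      have h3 : -tg θ (m - x₀) ≤ 2 * D := by
        have g1 := h.dd x₀ (Or.inl h.xK) k (Or.inl hk) (θ + Real.pi / 2)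
        have g2 := h.dd x₀ (Or.inl h.xK) l (Or.inr hl) (θ + Real.pi / 2)
        rw [lv_sub] at g1 g2
        rw [tg_eq_lv, lv_sub, lvm]
        linarith
      rw [lv_eq ψ θ (m - x₀), flip, flipc] at h1
      have h4 : lv θ (m - x₀) * Real.cos (θ - ψ) ≤ 0 := mul_nonpos_of_nonneg_of_nonpos h2 hcos0
      have h5 : -tg θ (m - x₀) * Real.sin (θ - ψ) ≤ 2 * D * s₀ :=
        (mul_le_mul_of_nonneg_right h3 hsin0.le).trans
          (mul_le_mul_of_nonneg_left hcon.le (by linarith [h.D0]))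
      have h6 : 2 * s₀ * D ≤ δ * D := mul_le_mul_of_nonneg_right h.s3 h.D0.le
      linarith
  -- the S-angle after `ψ`
  obtain ⟨j, hj1, hj2, hj3⟩ := h.near' ψ
  have hsinj : s₀ / 2 ≤ Real.sin (θ - j) := by
    have h1 := Real.abs_sin_sub_sin_le (θ - ψ) (θ - j)
    have h2 : |θ - ψ - (θ - j)| ≤ ε := by
      rw [abs_of_nonneg (by linarith)]
      linarith
    have h3 := (abs_le.1 (h1.trans h2)).2
    linarith [h.s4]
  have hθj : j < θ := by
    by_contra hcon
    push Not at hcon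
    have h1 : ε ≤ 1 := by linarith [h.s4, h.s1]
    have := Real.sin_nonpos_of_nonpos_of_neg_pi_le (x := θ - j) (by linarith)
      (by linarith [hψ2.2, Real.pi_gt_three])
    linarith
  obtain ⟨kj, hkj, ekj⟩ := exists_lv_eq_hs h.bK.compact (h.bK.nonempty.mono interior_subset) j
  have hd1 : lv ψ (kj - m) < 0 := by
    have := lv_le_hs h.bK.compact ψ hkj
    rw [lv_sub]
    linarith
  have hd2 : e * (s₀ / 2) ≤ lv j (kj - m) := by
    have h1 := lv_le_hs h.bL.compact j hl
    rw [← hj3, lml] at h1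
    have h2 := mul_le_mul_of_nonneg_left hsinj he.le
    rw [lv_sub, ekj]
    linarith
  have hd2' : 0 < lv j (kj - m) := lt_of_lt_of_le (mul_pos he (by linarith)) hd2
  have hjψ : ψ < j := by
    refine lt_of_le_of_ne hj1 fun hq => ?_
    rw [← hq] at hd2'
    linarith
  have hd3 : 0 < lv θ (kj - m) := extra_right' hjψ hθj.le (by linarith [hψ2.1]) hd2' hd1.le
  have hkjθ := lv_le_hs h.bK.compact θ hkj
  have hkjR := h.region (lv_le_hs h.bK.compact a hkj) (lv_le_hs h.bK.compact b hkj) (by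
    rw [lv_sub, lkm] at hd3
    linarith)
  have hB : ∀ χ, lv χ (kj - m) ≤ 3 * ρ / 4 + 2 * R := by
    intro χ
    have h1 := lv_le_abs χ θ (kj - m)
    have h2 : |lv θ (kj - m)| ≤ 3 * ρ / 4 := by
      rw [abs_of_pos hd3, lv_sub, lkm]
      linarith
    have h3 : |tg θ (kj - m)| ≤ 2 * R := by
      have e3 : kj - m = (kj - z) - (m - z) := by abel
      rw [e3, tg_sub]
      have := abs_sub (tg θ (kj - z)) (tg θ (m - z))
      linarith
    linarith
  have h1 := lv_var hB ψ j
  have h2 : |ψ - j| ≤ ε := by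
    rw [abs_sub_comm, abs_of_nonneg (by linarith)]
    linarith
  have h3 : (3 * ρ / 4 + 2 * R) * |ψ - j| ≤ (3 * ρ / 4 + 2 * R) * ε :=
    mul_le_mul_of_nonneg_left h2 (by linarith)
  linarith

end Pool.Agent.CRS
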