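import Pool.Agent.CRS.S4
import Pool.Agent.CRW.W6
import Pool.Agent.CRW.W8

/-!
# [CRS] The depth of the second hole near the thick place
-/

set_option autoImplicit false
open MeasureTheory Set
open Pool.Agent.XA Pool.Agent.CRN Pool.Agent.CRW

namespace Pool.Agent.CRS

variable {K P L Q : Set (ℝ × ℝ)} {x₀ z za zb : ℝ × ℝ} {a θ b δ D ρ ε σ r R s₀ : ℝ}

/-- the slice of the second hole through the centre of the disc -/
theorem slice_centre (bK : IsBody K) (bP : IsBody P) (bL : IsBody L)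
    (hPK : P ⊆ interior K) (hQL : Q ⊆ interior L) (hδD : 0 < δ * D) (hδ : 0 < δ) (hε : 0 < ε)
    (n1 : 4 * ε ≤ δ) (n2 : 4 * ε ≤ δ * δ)
    (disc : ∀ ψ, lv ψ x₀ + δ * D ≤ hs P ψ) (hw : ∀ ψ, hs K ψ + hs K (ψ + Real.pi) ≤ D)
    (hclose : ∀ ψ, |hs K ψ - hs L ψ| ≤ 2 * D * ε)
    (hX : ∀ c, volume {t : ℝ | pt θ c t ∈ K \ interior P} =
      volume {t : ℝ | pt θ c t ∈ L \ interior Q}) :
    δ * D ≤ len (interior Q) θ (lv θ x₀) := by
  have hD : 0 < D := pos_of_mul_pos_right hδD hδ.le
  have hPKs : ∀ ψ, hs P ψ < hs K ψ := fun ψ => hs_lt_of_subset bK bP hPK ψ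
  have hI : 2 * (δ * D) ≤ len (interior P) θ (lv θ x₀) := by
    have d1 := disc θ
    have d2 := disc (θ + Real.pi)
    rw [lv_add_pi] at d2
    rw [len_interior bP (by linarith) (by linarith)]
    have h1 : Icc (tg θ x₀ - δ * D) (tg θ x₀ + δ * D) ⊆ {t : ℝ | pt θ (lv θ x₀) t ∈ P} := by
      intro t ht
      have h2 := mem_of_disc bP disc (θ := θ) (c := 0) (t := t - tg θ x₀) (by
        rw [abs_zero, zero_add, abs_le]
        constructor <;> linarith [ht.1, ht.2])
      rw [add_sub_cancel, add_zero] at h2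
      exact h2
    have h3 := ENNReal.toReal_mono (slice_lt_top bP.compact θ _).ne (measure_mono h1)
    rw [Real.volume_Icc, ENNReal.toReal_ofReal (by linarith)] at h3
    unfold len
    linarith
  have hdiff := len_diff bK.compact bL.compact isOpen_interior isOpen_interior
    (interior_subset.trans (hPK.trans interior_subset))
    (interior_subset.trans (hQL.trans interior_subset)) (hX (lv θ x₀))
  have hDε : 0 < D * ε := mul_pos hD hε
  have he : 4 * (D * ε) ≤ δ * D := by
    have := mul_le_mul_of_nonneg_left n1 hD.le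
    linarith
  have hincl : ∀ w ∈ K, x₀ + (1 + 2 * D * ε / (δ * D / 2))⁻¹ • (w - x₀) ∈ L := by
    intro w hwK
    refine incl_of_hs bL (by linarith) (by linarith) (fun χ => ?_) (fun χ => ?_)
    · have h2 := disc χ
      have h3 := hPKs χ
      have h4 := abs_le.1 (hclose χ)
      linarith [h4.2]
    · have h1 := lv_le_hs bK.compact χ hwK
      have h4 := abs_le.1 (hclose χ)
      linarith [h4.2]
  set μ := 2 * D * ε / (δ * D / 2) with hμ
  have hμ0 : 0 ≤ μ := by rw [hμ]; positivity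
  have hμδ : μ * δ = 4 * ε := by
    rw [hμ]
    field_simp
    ring
  have hsc := scale_len bL.compact hμ0 hincl θ (lv θ x₀)
  rw [sub_self, mul_zero, add_zero] at hsc
  have hA := len_le_width bK hw θ (lv θ x₀)
  have hμδ2 : μ ≤ δ := by
    have h1 : μ * δ ≤ δ * δ := by rw [hμδ]; exact n2
    exact le_of_mul_le_mul_right h1 hδ
  have hμD : μ * D ≤ δ * D := mul_le_mul_of_nonneg_right hμδ2 hD.le
  by_contra hcon
  push Not at hcon
  have hBD : len L θ (lv θ x₀) ≤ D := by linarith
  have h1 : μ * len L θ (lv θ x₀) ≤ μ * D := mul_le_mul_of_nonneg_left hBD hμ0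
  linarith

/-- **The second hole is deep as well.** -/
theorem Dl.depth (h : Dl K L x₀ z za zb a θ b δ D ρ ε σ r R s₀) (bP : IsBody P) (bQ : IsBody Q)
    (hPK : P ⊆ interior K) (hQL : Q ⊆ interior L) (hδ : 0 < δ)
    (n1 : 4 * ε ≤ δ) (n2 : 4 * ε ≤ δ * δ)
    (n3 : (3 * ρ / 4 + 2 * R) * ε ≤ δ * ρ / 16 * (s₀ / 2))
    (disc : ∀ ψ, lv ψ x₀ + δ * D ≤ hs P ψ) (hw : ∀ ψ, hs K ψ + hs K (ψ + Real.pi) ≤ D)
    (hclose : ∀ ψ, |hs K ψ - hs L ψ| ≤ 2 * D * ε)
    (hX : ∀ c, volume {t : ℝ | pt θ c t ∈ K \ interior P} =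
      volume {t : ℝ | pt θ c t ∈ L \ interior Q})
    (hPd : hs P θ + ρ ≤ hs K θ) {y : ℝ × ℝ} (hy : y ∈ Q) : lv θ y + ρ / 2 ≤ hs K θ := by
  by_contra hcon
  push Not at hcon
  have hρ := h.ρ0
  have hD := h.D0
  have hs0 := h.s0
  have hlow := h.low
  have hδD : 0 < δ * D := mul_pos hδ hD
  set H := hs K θ with hH
  set c := H - 3 * ρ / 4 with hc
  set c0 := lv θ x₀ with hc0
  have hq0 := slice_centre (θ := θ) h.bK bP h.bL hPK hQL hδD hδ h.ε0 n1 n2 disc hw hclose hX
  rw [← hc0] at hq0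
  -- an interior point of `Q` at the level `c0`
  obtain ⟨t0, ht0⟩ : ∃ t : ℝ, pt θ c0 t ∈ interior Q := by
    by_contra h1
    push Not at h1
    have h2 : {t : ℝ | pt θ c0 t ∈ interior Q} = ∅ := by
      ext t
      simp only [Set.mem_ofPred_eq, Set.mem_empty_iff_false, iff_false]
      exact h1 t
    have h3 : len (interior Q) θ c0 = 0 := by
      unfold len
      rw [h2]
      simp
    linarith
  have hbQ := neg_hs_lt_lv bQ.compact θ ht0
  rw [lv_pt] at hbQ
  have hyH : lv θ y ≤ H := by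
    rw [hH, h.top]
    exact (lv_lt_hs h.bL.compact θ (hQL hy)).le
  have hyQ := lv_le_hs bQ.compact θ hy
  have hwθ := hw θ
  have hx0 := neg_hs_le_lv h.bK.compact θ h.xK
  have hcone := cone_len bQ.compact bQ.convex (θ := θ) (c1 := c0) (c2 := c) hy hlow
    (by rw [hc]; linarith)
  have hlenQ : δ * D ≤ len Q θ c0 := hq0.trans (len_mono bQ.compact interior_subset θ c0)
  have hg : δ * ρ / 4 ≤ len (interior Q) θ c := by
    rw [len_interior bQ (by linarith) (by linarith)]
    refine le_trans ?_ hcone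
    have h1 : 0 < lv θ y - c0 := by linarith
    have h2 : ρ / 4 / D ≤ (lv θ y - c) / (lv θ y - c0) := by
      rw [div_le_div_iff₀ hD h1]
      have h3 : ρ / 4 ≤ lv θ y - c := by rw [hc]; linarith
      have h4 : lv θ y - c0 ≤ D := by linarith
      calc ρ / 4 * (lv θ y - c0) ≤ ρ / 4 * D := mul_le_mul_of_nonneg_left h4 (by positivity)
        _ ≤ (lv θ y - c) * D := mul_le_mul_of_nonneg_right h3 hD.le
    calc δ * ρ / 4 = ρ / 4 / D * (δ * D) := by field_simp
      _ ≤ (lv θ y - c) / (lv θ y - c0) * len Q θ c0 :=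
        mul_le_mul h2 hlenQ hδD.le (le_trans (by positivity) h2)
  have hP0 : len (interior P) θ c = 0 := by
    unfold len
    rw [slice_interior_empty bP (by rw [hc]; linarith)]
    simp
  have hdiff := len_diff h.bK.compact h.bL.compact isOpen_interior isOpen_interior
    (interior_subset.trans (hPK.trans interior_subset))
    (interior_subset.trans (hQL.trans interior_subset)) (hX c)
  rw [hP0, sub_zero] at hdiff
  -- the chords of `K` and `L`
  have hbK : -hs K (θ + Real.pi) < c := by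
    have h1 := disc (θ + Real.pi)
    have h2 := hs_lt_of_subset h.bK bP hPK (θ + Real.pi)
    rw [lv_add_pi] at h1
    linarith
  have hbL : -hs L (θ + Real.pi) < c := by
    have h1 := neg_hs_lt_lv h.bL.compact θ (hQL (interior_subset ht0))
    rw [lv_pt] at h1
    linarith
  obtain ⟨t1, t2, -, hsK, -⟩ := chord_single h.bK hbK (by rw [← hH, hc]; linarith)
  obtain ⟨t1', t2', ht', hsL, -⟩ := chord_single h.bL hbL (by rw [← h.top, ← hH, hc]; linarith)
  have hlK : len K θ c = max (t2 - t1) 0 := by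
    unfold len
    rw [hsK, Real.volume_Icc, ENNReal.toReal_ofReal']
  have hlL : len L θ c = t2' - t1' := by
    unfold len
    rw [hsL, Real.volume_Icc, ENNReal.toReal_ofReal (by linarith)]
  have hK1 := le_max_left (t2 - t1) 0
  have mK : ∀ t, pt θ c t ∈ K ↔ t ∈ Icc t1 t2 := fun t => by
    rw [← hsK]
    rfl
  have mL : ∀ t, pt θ c t ∈ L ↔ t ∈ Icc t1' t2' := fun t => by
    rw [← hsL]
    rfl
  have hlong : t2 - t1 + δ * ρ / 4 ≤ t2' - t1' := by linarith
  have hne : t1 ≤ t2 := by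
    by_contra hc2
    push Not at hc2
    have h1 : len K θ c = 0 := by rw [hlK, max_eq_right (by linarith)]
    -- a point of `K` at the level `c`
    obtain ⟨p, hp, ep⟩ := seg_level h.bK.convex h.xK h.hz (θ := θ) (c := c) hlow
      (by rw [h.ez, ← hH, hc]; linarith)
    have h2 : pt θ c (tg θ p) ∈ K := by rw [← ep, pt_lv_tg]; exact hp
    have h3 := (mK _).1 h2
    linarith [h3.1, h3.2]
  rcases le_or_gt (t2 + δ * ρ / 8) t2' with hq | hq
  · have he : 0 < (t2' - t2) / 2 := by
      have : 0 < δ * ρ := mul_pos hδ hρ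
      linarith
    refine h.ext_left (t₀ := t2) (e := (t2' - t2) / 2) he ?_ ?_ ?_ ?_
    · rw [← hH, ← hc, mK]
      exact ⟨hne, le_refl _⟩
    · rw [← hH, ← hc, mK]
      intro h1
      linarith [h1.2]
    · rw [← hH, ← hc, mL]
      constructor <;> linarith
    · refine n3.trans (mul_le_mul_of_nonneg_right (by linarith) (by linarith))
  · have he : 0 < (t1 - t1') / 2 := by
      have : 0 < δ * ρ := mul_pos hδ hρ
      linarith
    refine h.ext_right (t₀ := t1) (e := (t1 - t1') / 2) he ?_ ?_ ?_ ?_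
    · rw [← hH, ← hc, mK]
      exact ⟨le_refl _, hne⟩
    · rw [← hH, ← hc, mK]
      intro h1
      linarith [h1.1]
    · rw [← hH, ← hc, mL]
      constructor <;> linarith
    · refine n3.trans (mul_le_mul_of_nonneg_right (by linarith) (by linarith))

end Pool.Agent.CRS
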