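import Pool.Agent.CRS.S2
import Pool.Agent.CRS.S5
import Pool.Agent.CRS.S6
import Pool.Agent.XA.D2
import Pool.Agent.XA.E1
import Pool.Agent.XA.E4
import Pool.Agent.XA.T4
import Pool.Agent.XA.V6

/-!
# [CRS] A thick place of arbitrary size: the outer bodies
-/

set_option autoImplicit false
open MeasureTheory Set
open Pool.Agent.XA Pool.Agent.CRN Pool.Agent.CRW

namespace Pool.Agent.CRS

/-- the annulus `K \ int P` has a disc of radius `δ D` in `P`, and at the angles of `[α, α + δ]` the bodies `K`, `P`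
have extreme points at distance `≤ ρ / δ` from `V`, those of `P` having clearance `ρ`; `L \ int Q` has the same
X-rays -/
structure Lp (N : ℕ) (s : ℕ → ℝ) (K P L Q : Set (ℝ × ℝ)) (x₀ V : ℝ × ℝ) (α δ D ε ρ : ℝ) :
    Prop where
  hN : 5 ≤ N
  hs' : Slopes N s
  bK : IsBody K
  bP : IsBody P
  bL : IsBody L
  bQ : IsBody Q
  hPK : P ⊆ interior K
  hQL : Q ⊆ interior L
  hX : ∀ (i : ℤ) (c : ℝ), volume {t : ℝ | pt (ang N s i) c t ∈ K \ interior P} =
    volume {t : ℝ | pt (ang N s i) c t ∈ L \ interior Q}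
  hw : ∀ θ, hs K θ + hs K (θ + Real.pi) ≤ D
  disc : ∀ ψ, lv ψ x₀ + δ * D ≤ hs P ψ
  topK : ∀ ψ ∈ Icc α (α + δ), ∃ x ∈ K, lv ψ x = hs K ψ ∧ ∀ χ, lv χ (x - V) ≤ ρ / δ
  topP : ∀ ψ ∈ Icc α (α + δ), ∃ z ∈ P, lv ψ z = hs P ψ ∧ (∀ χ, lv χ (z - V) ≤ ρ / δ) ∧
    lv ψ z + ρ ≤ hs K ψ ∧ ∀ t, |t| ≤ ρ / 2 → pt ψ (lv ψ z) (tg ψ z + t) ∈ interior K
  δ0 : 0 < δ
  ε0 : 0 < ε
  ρ0 : 0 < ρ
  hε : ε = 2 * Real.pi / N
  n5 : 400000 * ε ≤ δ ^ 5

variable {N : ℕ} {s : ℕ → ℝ} {K P L Q : Set (ℝ × ℝ)} {x₀ V : ℝ × ℝ} {α δ D ε ρ : ℝ}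

theorem Lp.hN0 (h : Lp N s K P L Q x₀ V α δ D ε ρ) : 0 < N := by
  have := h.hN
  omega

theorem Lp.mono (h : Lp N s K P L Q x₀ V α δ D ε ρ) : StrictMono (ang N s) :=
  ang_strictMono h.hN0 h.hs'

theorem Lp.gap (h : Lp N s K P L Q x₀ V α δ D ε ρ) (i : ℤ) :
    ang N s (i + 1) ≤ ang N s i + ε := by
  rw [h.hε]
  exact ang_gap h.hN0 h.hs' i

theorem Lp.gapn (h : Lp N s K P L Q x₀ V α δ D ε ρ) (i : ℤ) (k : ℕ) :
    ang N s (i + k) ≤ ang N s i + k * ε := by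
  induction k with
  | zero => simp
  | succ k ih =>
    have h1 := h.gap (i + k)
    push_cast
    rw [← add_assoc]
    linarith

/-- the next S-angle -/
theorem Lp.next (h : Lp N s K P L Q x₀ V α δ D ε ρ) (x : ℝ) :
    ∃ i, x < ang N s i ∧ ang N s i ≤ x + ε ∧ ang N s (i - 1) ≤ x := by
  obtain ⟨i₁, hi₁⟩ := ang_above h.hN0 h.hs' x
  obtain ⟨i₀, hi₀⟩ := ang_below h.hN0 h.hs' x
  obtain ⟨i, hi, hmax⟩ := Int.exists_greatest_of_bdd (P := fun i => ang N s i ≤ x)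
    ⟨i₁, fun z hz => by
      by_contra hc
      rw [not_le] at hc
      have := h.mono hc
      linarith⟩ ⟨i₀, hi₀.le⟩
  have h1 : x < ang N s (i + 1) := by
    by_contra hc
    rw [not_lt] at hc
    have := hmax (i + 1) hc
    omega
  have h2 := h.gap i
  exact ⟨i + 1, h1, by linarith, by rw [add_sub_cancel_right]; exact hi⟩

theorem Lp.near (h : Lp N s K P L Q x₀ V α δ D ε ρ) (ψ : ℝ) : ∃ i, |ang N s i - ψ| ≤ ε := by
  obtain ⟨i, h1, h2, -⟩ := h.next ψ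
  exact ⟨i, by rw [abs_of_nonneg (by linarith)]; linarith⟩

theorem Lp.lt (h : Lp N s K P L Q x₀ V α δ D ε ρ) (ψ : ℝ) : hs P ψ < hs K ψ :=
  hs_lt_of_subset h.bK h.bP h.hPK ψ

theorem Lp.D0 (h : Lp N s K P L Q x₀ V α δ D ε ρ) : 0 < D :=
  lt_of_lt_of_le (width_pos h.bK 0) (h.hw 0)

theorem Lp.R0 (h : Lp N s K P L Q x₀ V α δ D ε ρ) : 0 < δ * D := mul_pos h.δ0 h.D0

theorem Lp.δ1 (h : Lp N s K P L Q x₀ V α δ D ε ρ) : δ < 1 / 2 := by
  have h1 := h.hw 0
  have h2 := h.disc 0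
  have h3 := h.disc (0 + Real.pi)
  have h4 := h.lt 0
  have h5 := h.lt (0 + Real.pi)
  rw [lv_add_pi] at h3
  have h6 : 2 * δ * D < 1 * D := by linarith
  have h7 := lt_of_mul_lt_mul_right h6 h.D0.le
  linarith

theorem Lp.e1 (h : Lp N s K P L Q x₀ V α δ D ε ρ) : 6400000 * ε ≤ δ := by
  have h1 := h.n5
  have h2 : δ ^ 4 ≤ (1 / 2) ^ 4 := pow_le_pow_left₀ h.δ0.le h.δ1.le 4
  have h3 : δ ^ 5 ≤ 1 / 16 * δ := by
    calc δ ^ 5 = δ ^ 4 * δ := by ring
      _ ≤ (1 / 2) ^ 4 * δ := mul_le_mul_of_nonneg_right h2 h.δ0.le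
      _ = 1 / 16 * δ := by ring
  linarith

theorem Lp.e2 (h : Lp N s K P L Q x₀ V α δ D ε ρ) : 3200000 * ε ≤ δ * δ := by
  have h1 := h.n5
  have h2 : δ ^ 3 ≤ (1 / 2) ^ 3 := pow_le_pow_left₀ h.δ0.le h.δ1.le 3
  have h3 : δ ^ 5 ≤ 1 / 8 * (δ * δ) := by
    calc δ ^ 5 = δ ^ 3 * (δ * δ) := by ring
      _ ≤ (1 / 2) ^ 3 * (δ * δ) := mul_le_mul_of_nonneg_right h2 (mul_nonneg h.δ0.le h.δ0.le)
      _ = 1 / 8 * (δ * δ) := by ring
  linarith

theorem Lp.top (h : Lp N s K P L Q x₀ V α δ D ε ρ) (i : ℤ) :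
    hs K (ang N s i) = hs L (ang N s i) :=
  hs_eq_annuli h.bK h.bP h.bL h.bQ h.hPK h.hQL (h.hX i)

theorem Lp.bot (h : Lp N s K P L Q x₀ V α δ D ε ρ) (i : ℤ) :
    hs K (ang N s i + Real.pi) = hs L (ang N s i + Real.pi) := by
  have h1 := h.top (i + N)
  rw [ang_add_N h.hN0] at h1
  exact h1

theorem Lp.dd (h : Lp N s K P L Q x₀ V α δ D ε ρ) :
    ∀ x ∈ K ∪ L, ∀ y ∈ K ∪ L, ∀ ψ, lv ψ (x - y) ≤ 2 * D :=
  spread h.bK h.bL (ε := ε) (by linarith [h.e1, h.δ1, h.ε0]) h.hw (fun ψ => by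
    obtain ⟨i, hi⟩ := h.near ψ
    exact ⟨ang N s i, hi, h.top i, h.bot i⟩)

theorem Lp.close (h : Lp N s K P L Q x₀ V α δ D ε ρ) (ψ : ℝ) :
    |hs K ψ - hs L ψ| ≤ 2 * D * ε :=
  hs_close h.bK h.bL h.dd (fun ψ => by
    obtain ⟨i, hi⟩ := h.near ψ
    exact ⟨ang N s i, hi, h.top i⟩) ψ

theorem lv_two {u v w : ℝ × ℝ} {r : ℝ} (h1 : ∀ χ, lv χ (u - w) ≤ r) (h2 : ∀ χ, lv χ (v - w) ≤ r)
    (χ : ℝ) : lv χ (u - v) ≤ 2 * r := by
  have g1 := h1 χ
  have g2 := h2 (χ + Real.pi)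
  rw [lv_add_pi] at g2
  rw [lv_sub] at g1 g2 ⊢
  linarith

/-- the drop between two extreme points at distance `≤ r` -/
theorem drop {M : Set (ℝ × ℝ)} (hM : IsCompact M) {z w : ℝ × ℝ} {θ ψ r η : ℝ} (hz : z ∈ M)
    (ew : lv ψ w = hs M ψ) (hr : ∀ χ, lv χ (z - w) ≤ r) (hη : |ψ - θ| ≤ η) (hr0 : 0 ≤ r) :
    lv θ z - r * η ≤ lv θ w := by
  have h1 := lv_var hr ψ θ
  have h2 := lv_le_hs hM ψ hz
  have h3 : r * |ψ - θ| ≤ r * η := mul_le_mul_of_nonneg_left hη hr0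
  rw [lv_sub, lv_sub] at h1
  linarith

/-- **Both holes are deep in the middle of the thick place.** -/
theorem Lp.depth (h : Lp N s K P L Q x₀ V α δ D ε ρ) {i : ℤ}
    (hi : ang N s i ∈ Icc (α + δ / 6) (α + 5 * δ / 6)) {y : ℝ × ℝ} (hy : y ∈ P ∨ y ∈ Q) :
    lv (ang N s i) y + ρ / 2 ≤ hs K (ang N s i) := by
  have hpi := Real.pi_gt_three
  have hpi' := Real.pi_le_four
  have hδ0 := h.δ0
  have hδ1 := h.δ1
  have hρ := h.ρ0
  have hε0 := h.ε0
  have he1 := h.e1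
  have he2 := h.e2
  have hδδ : 0 < δ * δ := mul_pos hδ0 hδ0
  obtain ⟨zP, hzP, ezP, -, hdeep, -⟩ := h.topP _ (⟨by linarith [hi.1], by linarith [hi.2]⟩ :
    ang N s i ∈ Icc α (α + δ))
  rcases hy with hy | hy
  · have h1 := lv_le_hs h.bP.compact (ang N s i) hy
    linarith
  · obtain ⟨ia, a1, a2, -⟩ := h.next α
    obtain ⟨ib, b1, b2, -⟩ := h.next (α + δ - ε)
    obtain ⟨z, hz, ez, nz⟩ := h.topK _ (⟨by linarith [hi.1], by linarith [hi.2]⟩ :
      ang N s i ∈ Icc α (α + δ))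
    obtain ⟨za, hza, eza, nza⟩ := h.topK _ (⟨by linarith, by linarith⟩ :
      ang N s ia ∈ Icc α (α + δ))
    obtain ⟨zb, hzb, ezb, nzb⟩ := h.topK _ (⟨by linarith, by linarith⟩ :
      ang N s ib ∈ Icc α (α + δ))
    have hρδ : 0 < ρ / δ := div_pos hρ hδ0
    have hρδ2 : ρ ≤ ρ / δ := by
      rw [le_div_iff₀ hδ0]
      have := mul_le_mul_of_nonneg_left hδ1.le hρ.le
      linarith
    have hx0 : x₀ ∈ P := by
      have h1 := mem_of_disc h.bP h.disc (θ := 0) (c := 0) (t := 0) (by simpa using h.R0.le)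
      rw [add_zero, add_zero, pt_lv_tg] at h1
      exact h1
    have key : Dl K L x₀ z za zb (ang N s ia) (ang N s i) (ang N s ib) δ D ρ ε (δ / 8)
        (2 * (ρ / δ)) (48 * ρ / (δ * δ)) (δ * δ / 128) :=
      { bK := h.bK
        bL := h.bL
        D0 := h.D0
        ρ0 := hρ
        ε0 := hε0
        s0 := by positivity
        disc := fun ψ => by linarith [h.disc ψ, h.lt ψ]
        xK := interior_subset (h.hPK hx0)
        dd := h.dd
        near := fun ψ => by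
          obtain ⟨j, j1, j2, j3⟩ := h.next ψ
          have := h.gap (j - 1)
          rw [sub_add_cancel] at this
          exact ⟨ang N s (j - 1), j3, by linarith, h.top _⟩
        near' := fun ψ => by
          obtain ⟨j, j1, j2, -⟩ := h.next ψ
          exact ⟨ang N s j, j1.le, j2, h.top _⟩
        top := h.top _
        ea := h.top _
        eb := h.top _
        σ0 := by linarith
        aθ := by linarith [hi.1]
        θb := by linarith [hi.2]
        aθ' := by linarith [hi.2]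
        θb' := by linarith [hi.1]
        hz := hz
        ez := ez
        eza := eza
        ezb := ezb
        hza := lv_two nza nz
        hzb := lv_two nzb nz
        hR := by
          have h1 : δ / 16 ≤ Real.sin (δ / 8) := by
            have h3 := Real.mul_le_sin (x := δ / 8) (by linarith) (by linarith)
            have h4 : 1 / 2 ≤ 2 / Real.pi := by
              rw [div_le_div_iff₀ (by norm_num) (by linarith)]
              linarith
            have h5 : 1 / 2 * (δ / 8) ≤ 2 / Real.pi * (δ / 8) :=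
              mul_le_mul_of_nonneg_right h4 (by linarith)
            linarith
          have h2 : 48 * ρ / (δ * δ) * (δ / 16) ≤ 48 * ρ / (δ * δ) * Real.sin (δ / 8) :=
            mul_le_mul_of_nonneg_left h1 (by positivity)
          have h3 : 48 * ρ / (δ * δ) * (δ / 16) = 3 * (ρ / δ) := by
            field_simp
            ring
          linarith
        low := by
          have h1 := h.disc (ang N s i)
          have h2 := h.R0
          linarith
        s1 := by nlinarith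
        s2 := by
          have : 8 * (48 * ρ / (δ * δ) * (δ * δ / 128)) = 3 * ρ := by
            field_simp
            ring
          linarith
        s3 := by nlinarith
        s4 := by linarith }
    refine key.depth h.bP h.bQ h.hPK h.hQL hδ0 (by linarith) (by linarith) ?_ h.disc h.hw h.close
      (h.hX i) (by linarith) hy
    -- the numerical condition
    have h1 := h.n5
    have h2 : 3 * ρ / 4 ≤ ρ / (δ * δ) := by
      rw [le_div_iff₀ hδδ]
      have h3 : δ * δ ≤ 1 := by nlinarith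
      have h4 : 3 * ρ / 4 * (δ * δ) ≤ 3 * ρ / 4 * 1 := mul_le_mul_of_nonneg_left h3 (by linarith)
      linarith
    have h3 : (3 * ρ / 4 + 2 * (48 * ρ / (δ * δ))) * ε ≤ 97 * (ρ / (δ * δ)) * ε := by
      refine mul_le_mul_of_nonneg_right ?_ hε0.le
      have : 2 * (48 * ρ / (δ * δ)) = 96 * (ρ / (δ * δ)) := by ring
      linarith
    have h4 : δ * ρ / 16 * (δ * δ / 128 / 2) = ρ / (δ * δ) * (δ ^ 5 / 4096) := by
      field_simp
      ring
    rw [h4]
    have h5 : ρ / (δ * δ) * (97 * ε) ≤ ρ / (δ * δ) * (δ ^ 5 / 4096) :=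
      mul_le_mul_of_nonneg_left (by linarith) (by positivity)
    linarith

end Pool.Agent.CRS
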