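import Pool.Agent.CRS.S7
import Pool.Agent.XA.Z1

/-!
# [CRS] A thick place of arbitrary size: a clean window
-/

set_option autoImplicit false
open MeasureTheory Set
open Pool.Agent.XA Pool.Agent.CRN Pool.Agent.CRW

namespace Pool.Agent.CRS

variable {N : ℕ} {s : ℕ → ℝ} {K P L Q : Set (ℝ × ℝ)} {x₀ V : ℝ × ℝ} {α δ D ε ρ : ℝ}

theorem Lp.r0 (h : Lp N s K P L Q x₀ V α δ D ε ρ) : 0 < ρ / δ := div_pos h.ρ0 h.δ0

/-- slices of the outer bodies above the holes -/
theorem Lp.slice (h : Lp N s K P L Q x₀ V α δ D ε ρ) {i : ℤ}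
    (hi : ang N s i ∈ Icc (α + δ / 6) (α + 5 * δ / 6)) {c : ℝ}
    (hc : hs K (ang N s i) - ρ / 4 ≤ c) :
    volume {t : ℝ | pt (ang N s i) c t ∈ K} = volume {t : ℝ | pt (ang N s i) c t ∈ L} := by
  have hρ := h.ρ0
  refine outer_slice (P := interior P) (Q := interior Q) (fun y hy => ?_) (fun y hy => ?_)
    (h.hX i c)
  · have := h.depth hi (Or.inl (interior_subset hy))
    linarith
  · have := h.depth hi (Or.inr (interior_subset hy))
    linarith

/-- the drop between two extreme points of `K` at angles of the thick place -/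
theorem Lp.dropK (h : Lp N s K P L Q x₀ V α δ D ε ρ) {θ ψ η : ℝ} (hθ : θ ∈ Icc α (α + δ))
    {w : ℝ × ℝ} (ew : lv ψ w = hs K ψ) (hw : ∀ χ, lv χ (w - V) ≤ ρ / δ) (hη : |ψ - θ| ≤ η) :
    hs K θ - 2 * (ρ / δ) * η ≤ lv θ w := by
  obtain ⟨z, hz, ez, nz⟩ := h.topK θ hθ
  rw [← ez]
  exact drop h.bK.compact hz ew (lv_two nz hw) hη (by linarith [h.r0])

/-- the drop between two extreme points of `P` at angles of the thick place -/
theorem Lp.dropP (h : Lp N s K P L Q x₀ V α δ D ε ρ) {θ ψ η : ℝ} (hθ : θ ∈ Icc α (α + δ))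
    {w : ℝ × ℝ} (ew : lv ψ w = hs P ψ) (hw : ∀ χ, lv χ (w - V) ≤ ρ / δ) (hη : |ψ - θ| ≤ η) :
    hs P θ - 2 * (ρ / δ) * η ≤ lv θ w := by
  obtain ⟨z, hz, ez, nz, -⟩ := h.topP θ hθ
  rw [← ez]
  exact drop h.bP.compact hz ew (lv_two nz hw) hη (by linarith [h.r0])

/-- the drop over a block -/
theorem Lp.small (h : Lp N s K P L Q x₀ V α δ D ε ρ) :
    2 * (ρ / δ) * (166 * ε) ≤ ρ * δ / 1440 := by
  have h1 := h.e2
  have h2 : 2 * (ρ / δ) * (166 * ε) ≤ 2 * (ρ / δ) * (δ * δ / 3200) := by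
    refine mul_le_mul_of_nonneg_left ?_ (by linarith [h.r0])
    have := mul_pos h.δ0 h.δ0
    linarith [h.ε0]
  have h3 : 2 * (ρ / δ) * (δ * δ / 3200) = ρ * δ / 1600 := by
    have := h.δ0.ne'
    field_simp
    ring
  have h4 := mul_pos h.ρ0 h.δ0
  linarith

/-- equal support functions on blocks -/
theorem Lp.block (h : Lp N s K P L Q x₀ V α δ D ε ρ) {i0 : ℤ} (h0 : α + δ / 6 ≤ ang N s i0)
    (h1 : ang N s (i0 + 164) ≤ α + 5 * δ / 6) :
    ∀ ψ ∈ Icc (ang N s i0) (ang N s (i0 + 164)), hs K ψ = hs L ψ := by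
  have hpi := Real.pi_gt_three
  have hδ1 := h.δ1
  have hδ0 := h.δ0
  have hε0 := h.ε0
  have hmono := h.mono.monotone
  have hgap := h.gapn (i0 - 1) 166
  have he1 := h.e1
  push_cast at hgap
  have e165 : i0 - 1 + 166 = i0 + 165 := by ring
  rw [e165] at hgap
  have g1 := h.gap (i0 - 1)
  rw [sub_add_cancel] at g1
  have g2 := h.gap (i0 + 164)
  have e2 : i0 + 164 + 1 = i0 + 165 := by ring
  rw [e2] at g2
  have m1 : ang N s (i0 - 1) ≤ ang N s i0 := hmono (by omega)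
  have m2 : ang N s (i0 + 164) ≤ ang N s (i0 + 165) := hmono (by omega)
  have m3 : ang N s i0 ≤ ang N s (i0 + 164) := hmono (by omega)
  obtain ⟨za, hza, eza, nza⟩ := h.topK (ang N s (i0 - 1)) ⟨by linarith, by linarith⟩
  obtain ⟨zb, hzb, ezb, nzb⟩ := h.topK (ang N s (i0 + 165)) ⟨by linarith, by linarith⟩
  have hsm := h.small
  have hρδ : ρ * δ / 1440 ≤ ρ / 4 := by
    have : ρ * δ ≤ ρ * 1 := mul_le_mul_of_nonneg_left (by linarith) h.ρ0.le
    have := h.ρ0
    linarith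
  refine lc' h.hN h.hs' h.bK h.bL (i0 := i0)
    (c := fun i => hs K (ang N s (i0 + i)) - ρ / 4) (by linarith) ?_ ?_
  · intro i g0 g1
    have hi : ang N s (i0 + i) ∈ Icc (α + δ / 6) (α + 5 * δ / 6) :=
      ⟨h0.trans (hmono (by omega)), (hmono (by omega)).trans h1⟩
    exact dir_of_xray h.bK h.bL (h.top _) (h.bot _) fun c hc =>
      interior_of_closed h.bK h.bL (h.top _) (h.bot _) (h.slice hi hc)
  · intro i k0 k1 ψ hψ w hw
    have n1 : ang N s i0 ≤ ang N s (i0 + i) := hmono (by omega)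
    have n2 : ang N s (i0 + i) ≤ ang N s (i0 + 164) := hmono (by omega)
    have hθ : ang N s (i0 + i) ∈ Icc α (α + δ) := ⟨by linarith, by linarith⟩
    have da := h.dropK hθ eza nza (η := 166 * ε) (by
      rw [abs_le]; constructor <;> linarith)
    have db := h.dropK hθ ezb nzb (η := 166 * ε) (by
      rw [abs_le]; constructor <;> linarith)
    exact seen_level h.bK h.bL (a := ang N s (i0 - 1)) (x := ang N s i0)
      (y := ang N s (i0 + 164)) (b := ang N s (i0 + 165)) (h.mono (by omega)) (h.mono (by omega))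
      (h.mono (by omega)) (by linarith) (h.top _) (h.top _) (h.top _) (h.top _) hza eza hzb ezb
      ⟨n1, n2⟩ hψ hw (by linarith) (by linarith)

/-- equal support functions in the middle of the thick place -/
theorem Lp.window (h : Lp N s K P L Q x₀ V α δ D ε ρ) {ia ib : ℤ} (h0 : α + δ / 6 ≤ ang N s ia)
    (h1 : ang N s ib ≤ α + 5 * δ / 6) (h2 : ia + 164 ≤ ib) :
    ∀ ψ ∈ Icc (ang N s ia) (ang N s ib), hs K ψ = hs L ψ := by
  intro ψ hψ
  have hmono := h.mono.monotone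
  obtain ⟨j, hj, hmax⟩ := Int.exists_greatest_of_bdd (P := fun i => ang N s i ≤ ψ)
    ⟨ib, fun z hz => by
      by_contra hc
      rw [not_le] at hc
      have := h.mono hc
      linarith [hψ.2]⟩ ⟨ia, hψ.1⟩
  have g1 : ψ < ang N s (j + 1) := by
    by_contra hc
    rw [not_lt] at hc
    have := hmax (j + 1) hc
    omega
  have g2 : ia ≤ j := hmax ia hψ.1
  rcases le_total j (ib - 164) with hc | hc
  · exact h.block (i0 := j) (h0.trans (hmono g2)) ((hmono (by omega)).trans h1) ψ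
      ⟨hj, g1.le.trans (hmono (by omega))⟩
  · have e : ib - 164 + 164 = ib := by ring
    exact h.block (i0 := ib - 164) (h0.trans (hmono (by omega))) (by rw [e]; exact h1) ψ
      ⟨(hmono hc).trans hj, by rw [e]; exact hψ.2⟩

/-- two S-angles in an interval -/
theorem Lp.two (h : Lp N s K P L Q x₀ V α δ D ε ρ) {x y : ℝ} (hxy : x + 2 * ε ≤ y) :
    ∃ p ∈ range (ang N s), ∃ q ∈ range (ang N s), p ∈ Icc x y ∧ q ∈ Icc x y ∧ p < q := by
  obtain ⟨i, h1, h2, -⟩ := h.next x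
  have h3 := h.gap i
  have h4 := h.mono (lt_add_one i)
  exact ⟨_, ⟨i, rfl⟩, _, ⟨i + 1, rfl⟩, ⟨h1.le, by linarith [h.ε0]⟩, ⟨by linarith, by linarith⟩, h4⟩

theorem Lp.exists_Cv (h : Lp N s K P L Q x₀ V α δ D ε ρ) : ∃ a b Va Vb u v,
    Cv K P L Q (range (ang N s)) a b Va Vb u v (ρ / 2) ∧
      v = u + δ / 12 ∧ α ≤ u ∧ v ≤ α + δ := by
  have hεδ := h.e1
  have hε0 := h.ε0
  have hδ0 := h.δ0
  have hδ1 := h.δ1
  have hρ := h.ρ0
  have hpi := Real.pi_gt_three
  obtain ⟨ia, a1, a2, -⟩ := h.next (α + δ / 6)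
  obtain ⟨ib, b1, b2, -⟩ := h.next (α + 5 * δ / 6 - ε)
  have hab : ia + 164 ≤ ib := by
    by_contra hc
    have h1 : ib ≤ ia + 164 := by omega
    have h2 := h.mono.monotone h1
    have h3 := h.gapn ia 164
    push_cast at h3
    linarith
  have heq := h.window a1.le (by linarith) hab
  obtain ⟨Va, Vb, F⟩ := exists_Fr h.bK h.bL (a := ang N s ia) (b := ang N s ib) (by linarith)
    (by linarith) heq
  have hvis : ∀ θ ∈ range (ang N s), θ ∈ Ioo (ang N s ia) (ang N s ib) → ∃ c0 < hs K θ,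
      ∀ c, c0 < c → c < hs K θ →
      volume {t : ℝ | pt θ c t ∈ K} = volume {t : ℝ | pt θ c t ∈ L} := by
    rintro θ ⟨i, rfl⟩ hi
    exact ⟨hs K (ang N s i) - ρ / 4, by linarith, fun c hc _ =>
      h.slice ⟨by linarith [hi.1], by linarith [hi.2]⟩ hc.le⟩
  obtain ⟨u, v, a', b', Va', Vb', huv, F', hu, hv, hcl⟩ := F.clean hvis
    (c1 := α + 3 * δ / 12) (c2 := α + 4 * δ / 12) (c3 := α + 5 * δ / 12) (c4 := α + 6 * δ / 12)
    (c5 := α + 7 * δ / 12) (c6 := α + 8 * δ / 12) (by linarith) (by linarith) (by linarith)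
    (by linarith) (by linarith) (by linarith) (by linarith) (h.two (by linarith))
    (h.two (by linarith))
  have huv1 : v = u + δ / 12 := by
    rcases huv with ⟨rfl, rfl⟩ | ⟨rfl, rfl⟩ | ⟨rfl, rfl⟩ <;> ring
  have huv2 : α + δ / 6 ≤ u := by
    rcases huv with ⟨rfl, rfl⟩ | ⟨rfl, rfl⟩ | ⟨rfl, rfl⟩ <;> linarith
  have huv3 : v ≤ α + 5 * δ / 6 := by
    rcases huv with ⟨rfl, rfl⟩ | ⟨rfl, rfl⟩ | ⟨rfl, rfl⟩ <;> linarith
  refine ⟨a', b', Va', Vb', u, v, ?_, huv1, by linarith, by linarith⟩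
  exact
    { fr := F'
      bP := h.bP
      bQ := h.bQ
      hPK := h.hPK
      hQL := h.hQL
      hX := by
        rintro θ ⟨i, rfl⟩ c
        exact h.hX i c
      au := hu
      vb := hv
      uv := by linarith
      clean := hcl
      vis := by
        rintro θ ⟨i, rfl⟩ hi
        obtain ⟨W, hW, eW, nW⟩ := h.topK _ (⟨by linarith [hi.1], by linarith [hi.2]⟩ :
          ang N s i ∈ Icc α (α + δ))
        refine ⟨W, hW, eW, ?_⟩
        rintro z hz θ' ⟨j, rfl⟩ hj
        have d1 := h.depth (i := j) ⟨by linarith [hj.1], by linarith [hj.2]⟩ hz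
        have d2 := h.dropK (θ := ang N s j) ⟨by linarith [hj.1], by linarith [hj.2]⟩ eW nW
          (η := δ / 12) (by
            rw [abs_le]
            constructor <;> linarith [hi.1, hi.2, hj.1, hj.2])
        have e : 2 * (ρ / δ) * (δ / 12) = ρ / 6 := by
          have := hδ0.ne'
          field_simp
          ring
        rw [e] at d2
        linarith
      ball := by
        rintro θ ⟨i, rfl⟩ hi
        obtain ⟨z, hz, ez, -, -, hz'⟩ := h.topP _ (⟨by linarith [hi.1], by linarith [hi.2]⟩ :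
          ang N s i ∈ Icc α (α + δ))
        exact ⟨z, hz, ez, hz'⟩
      ρ'0 := by linarith }

end Pool.Agent.CRS
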