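import Pool.Agent.CRS.S8
import Pool.Agent.CRW.W7
import Pool.Agent.CRW.W8

/-!
# [CRS] A thick place of arbitrary size: the annuli are equal
-/

set_option autoImplicit false
open MeasureTheory Set
open Pool.Agent.XA Pool.Agent.CRN Pool.Agent.CRW

namespace Pool.Agent.CRS

variable {N : ℕ} {s : ℕ → ℝ} {K P L Q : Set (ℝ × ℝ)} {x₀ V : ℝ × ℝ} {α δ D ε ρ : ℝ}

/-- the centre of the disc is in `Q` -/
theorem Lp.centre (h : Lp N s K P L Q x₀ V α δ D ε ρ) : x₀ ∈ P ∧ x₀ ∈ Q := by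
  have hR := h.R0
  have hD := h.D0
  have hεδ := h.e1
  have hε0 := h.ε0
  refine ⟨?_, ?_⟩
  · have h1 := mem_of_disc h.bP h.disc (θ := 0) (c := 0) (t := 0) (by simpa using hR.le)
    rw [add_zero, add_zero, pt_lv_tg] at h1
    exact h1
  · refine centre_mem h.bK h.bP h.bL h.bQ h.hPK h.hQL (R := δ * D) (D := D) (ε := ε) hR hε0 ?_ ?_
      h.disc h.close h.hw h.dd (fun ψ => ?_)
    · have h3 : D * (6400000 * ε) ≤ D * δ := mul_le_mul_of_nonneg_left hεδ hD.le
      have h4 : 0 < D * ε := mul_pos hD h.ε0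
      linarith
    · have h3 : D * D * (3200000 * ε) ≤ D * D * (δ * δ) :=
        mul_le_mul_of_nonneg_left h.e2 (mul_pos hD hD).le
      have h4 : 0 < D * (D * ε) := mul_pos hD (mul_pos hD h.ε0)
      nlinarith
    · obtain ⟨i, hi⟩ := h.near ψ
      exact ⟨_, hi, h.hX i⟩

theorem Lp.ρD (h : Lp N s K P L Q x₀ V α δ D ε ρ) : ρ ≤ D := by
  obtain ⟨z, hz, ez, -, h1, -⟩ := h.topP α ⟨le_refl _, by linarith [h.δ0]⟩
  have h2 := h.hw α
  have h3 := neg_hs_le_lv h.bK.compact α (interior_subset (h.hPK hz))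
  linarith

/-- a fine window in which the symmetric difference of the outer bodies is at depth `ρ δ / 720` below the top of
the inner body -/
theorem Lp.exists_fine (h : Lp N s K P L Q x₀ V α δ D ε ρ) : ∃ a b Va Vb i0,
    Fr K L a b Va Vb ∧ a < ang N s i0 ∧ ang N s (i0 + 166) < b ∧
    α ≤ ang N s i0 ∧ ang N s (i0 + 166) ≤ α + δ ∧
    ∀ i : ℤ, 0 ≤ i → i ≤ 166 → hs P (ang N s (i0 + i)) = hs Q (ang N s (i0 + i)) ∧
      (∀ w ∈ closure (SD K L), lv (ang N s (i0 + i)) w ≤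
        hs P (ang N s (i0 + i)) - ρ * δ / 720) ∧
      (∀ c, hs P (ang N s (i0 + i)) - ρ * δ / 720 < c →
        volume {t : ℝ | pt (ang N s (i0 + i)) c t ∈ interior P} =
          volume {t : ℝ | pt (ang N s (i0 + i)) c t ∈ interior Q}) := by
  have hεδ := h.e1
  have hε0 := h.ε0
  have hδ0 := h.δ0
  have hδ1 := h.δ1
  have hρ := h.ρ0
  have hpi := Real.pi_gt_three
  have hpi' := Real.pi_le_four
  obtain ⟨a, b, Va, Vb, u, v, C, huv, hu, hv⟩ := h.exists_Cv
  obtain ⟨u', v', hu', hv', huv', hg⟩ := C.third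
  have hw : v' = u' + 10 * (δ / 360) := by
    rw [huv', huv]
    ring
  -- strictness
  have strict : ∀ θ ∈ range (ang N s), θ ∈ Icc (u' + δ / 360) (v' - δ / 360) →
      ∀ x ∈ closure (SD K L), lv θ x < max (hs P θ) (hs Q θ) := by
    intro θ hθ hθ' x hx
    obtain ⟨j, j1, j2, -⟩ := h.next u'
    obtain ⟨k, k1, k2, -⟩ := h.next θ
    exact C.strict hu' hv' hg ⟨j, rfl⟩ hθ ⟨k, rfl⟩ ⟨j1.le, by linarith [hθ'.1, hθ'.2]⟩
      ⟨by linarith [hθ'.1, hθ'.2], by linarith [hθ'.1, hθ'.2]⟩ (by linarith [hθ'.1])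
      k1 hx
  obtain ⟨j, j1, j2, -⟩ := h.next (u' + δ / 360)
  obtain ⟨k, k1, k2, -⟩ := h.next (u' + 8 * (δ / 360))
  obtain ⟨i0, i1, i2, -⟩ := h.next (u' + 4 * (δ / 360))
  have hgap := h.gapn i0 166
  push_cast at hgap
  have hmono := h.mono.monotone
  refine ⟨a, b, Va, Vb, i0, C.fr, by linarith [C.au], by linarith [C.vb], by linarith,
    by linarith, ?_⟩
  intro i g0 g1
  have m1 : ang N s i0 ≤ ang N s (i0 + i) := hmono (by omega)
  have m2 : ang N s (i0 + i) ≤ ang N s (i0 + 166) := hmono (by omega)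
  have e1 : hs P (ang N s (i0 + i)) = hs Q (ang N s (i0 + i)) :=
    C.hsPQ ⟨_, rfl⟩ (strict _ ⟨_, rfl⟩ ⟨by linarith, by linarith⟩)
  have e2 : ∀ w ∈ closure (SD K L), lv (ang N s (i0 + i)) w ≤
      hs P (ang N s (i0 + i)) - ρ * δ / 720 := by
    intro w hw'
    have h1 := C.margin (j := ang N s j) (θ := ang N s (i0 + i)) (k := ang N s k)
      (ε := 2 * (δ / 360)) ⟨_, rfl⟩ ⟨_, rfl⟩ ⟨_, rfl⟩ ⟨by linarith, by linarith⟩
      ⟨by linarith, by linarith⟩ (by linarith) (by linarith) (by linarith) (by linarith)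
      (by linarith) (by linarith) (strict _ ⟨_, rfl⟩ ⟨by linarith, by linarith⟩)
      (strict _ ⟨_, rfl⟩ ⟨by linarith, by linarith⟩) hw'
    have h2 : δ / 360 ≤ Real.sin (2 * (δ / 360)) := by
      have h3 := Real.mul_le_sin (x := 2 * (δ / 360)) (by linarith) (by linarith)
      have h4 : 1 / 2 ≤ 2 / Real.pi := by
        rw [div_le_div_iff₀ (by norm_num) (by linarith)]
        linarith
      have h5 : 1 / 2 * (2 * (δ / 360)) ≤ 2 / Real.pi * (2 * (δ / 360)) :=
        mul_le_mul_of_nonneg_right h4 (by linarith)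
      linarith
    have h6 : ρ / 2 * (δ / 360) ≤ ρ / 2 * Real.sin (2 * (δ / 360)) :=
      mul_le_mul_of_nonneg_left h2 (by linarith)
    have h7 : ρ / 2 * (δ / 360) = ρ * δ / 720 := by ring
    linarith
  exact ⟨e1, e2, fun c hc => C.int_eq ⟨_, rfl⟩ e2 hc⟩

/-- **One thick place of arbitrary size suffices.** -/
theorem Lp.main (h : Lp N s K P L Q x₀ V α δ D ε ρ) : K = L ∧ P = Q := by
  classical
  have hεδ := h.e1
  have hε0 := h.ε0
  have hδ0 := h.δ0
  have hδ1 := h.δ1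
  have hD := h.D0
  have hR := h.R0
  have hρ := h.ρ0
  have hρD := h.ρD
  have hpi := Real.pi_gt_three
  have hmono := h.mono.monotone
  obtain ⟨a, b, Va, Vb, i0, F, ha, hb, hα, hβ, hi⟩ := h.exists_fine
  have hgap := h.gapn i0 166
  push_cast at hgap
  have hlt : ang N s i0 < ang N s (i0 + 166) := h.mono (by omega)
  have h0 := hi 0 (le_refl _) (by norm_num)
  have h166 := hi 166 (by norm_num) (le_refl _)
  rw [add_zero] at h0
  have hκ0 : 0 < ρ * δ / 720 := by positivity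
  have hκD : ρ * δ / 720 ≤ δ * D / 720 := by
    have := mul_le_mul_of_nonneg_left hρD hδ0.le
    linarith
  have hDε : D * ε ≤ δ * D / 6400000 := by
    have := mul_le_mul_of_nonneg_left hεδ hD.le
    linarith
  have hDε0 : 0 < D * ε := mul_pos hD hε0
  have hsub : ∀ v ∈ P ∪ Q, v ∈ K ∪ L := by
    rintro v (hv | hv)
    · exact Or.inl (interior_subset (h.hPK hv))
    · exact Or.inr (interior_subset (h.hQL hv))
  have W : Bw P Q (ang N s i0) (ang N s (i0 + 166)) (2 * D) (167 * ε) (ρ * δ / 720) x₀ :=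
    { bP := h.bP
      bQ := h.bQ
      xy := hlt
      yη := by linarith
      ηπ := by linarith
      dd := fun v hv w hw ψ => h.dd v (hsub v hv) w (hsub w hw) ψ
      κ0 := hκ0
      xP := h.centre.1
      xQ := h.centre.2
      low := fun ψ hψ => by
        have h1 := h.disc ψ
        linarith
      low' := fun ψ hψ => by
        obtain ⟨q, hq, eq⟩ := exists_lv_eq_hs h.bQ.compact (h.bQ.nonempty.mono interior_subset)
          (ang N s i0)
        have h1 := h.disc (ang N s i0)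
        have h2 := lv_le_hs h.bQ.compact ψ hq
        have h3 := lv_var (v := q - x₀) (h.dd q (hsub q (Or.inr hq)) x₀
          (hsub x₀ (Or.inl h.centre.1))) ψ (ang N s i0)
        rw [lv_sub, lv_sub] at h3
        have h4 : |ψ - ang N s i0| ≤ 167 * ε := by
          rw [abs_le]
          constructor <;> linarith [hψ.1, hψ.2]
        have h5 : 2 * D * |ψ - ang N s i0| ≤ 2 * D * (167 * ε) :=
          mul_le_mul_of_nonneg_left h4 (by linarith)
        have h6 := h0.1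
        linarith }
  obtain ⟨za, hza, eza, nza, -⟩ := h.topP (ang N s i0) ⟨by linarith, by linarith⟩
  obtain ⟨zb, hzb, ezb, nzb, -⟩ := h.topP (ang N s (i0 + 166)) ⟨by linarith, by linarith⟩
  have hsm := h.small
  have hPQ := pq_block h.hN h.hs' W (fun i g0 g1 => (hi i g0 g1).1) hza eza hzb ezb
    (fun i g0 g1 => by
      have m1 : ang N s i0 ≤ ang N s (i0 + i) := hmono (by omega)
      have m2 : ang N s (i0 + i) ≤ ang N s (i0 + 166) := hmono (by omega)
      have da := h.dropP (θ := ang N s (i0 + i)) ⟨by linarith, by linarith⟩ eza nza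
        (η := 166 * ε) (by rw [abs_le]; constructor <;> linarith)
      have db := h.dropP (θ := ang N s (i0 + i)) ⟨by linarith, by linarith⟩ ezb nzb
        (η := 166 * ε) (by rw [abs_le]; constructor <;> linarith)
      exact ⟨by linarith, by linarith⟩)
    (fun i g0 g1 => (hi i (by omega) (by omega)).2.2)
  have n1 : ang N s i0 < ang N s (i0 + 1) := h.mono (by omega)
  have n2 : ang N s (i0 + 1) < ang N s (i0 + 165) := h.mono (by omega)
  have n3 : ang N s (i0 + 165) < ang N s (i0 + 166) := h.mono (by omega)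
  obtain ⟨Ua, Ub, F2⟩ := exists_Fr h.bP h.bQ n2 (by linarith) hPQ
  have idx : ∀ j : ℤ, ang N s j ∈ Icc (ang N s (i0 + 1)) (ang N s (i0 + 165)) →
      ∃ i : ℤ, 1 ≤ i ∧ i ≤ 165 ∧ j = i0 + i := by
    intro j hj
    have g1 : i0 + 1 ≤ j := h.mono.le_iff_le.1 hj.1
    have g2 : j ≤ i0 + 165 := h.mono.le_iff_le.1 hj.2
    exact ⟨j - i0, by omega, by omega, by ring⟩
  have hvis : ∀ θ ∈ range (ang N s), θ ∈ Ioo (ang N s (i0 + 1)) (ang N s (i0 + 165)) →
      ∃ c0 < hs P θ, ∀ c, c0 < c → c < hs P θ →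
      volume {t : ℝ | pt θ c t ∈ P} = volume {t : ℝ | pt θ c t ∈ Q} := by
    rintro θ ⟨j, rfl⟩ hj
    obtain ⟨i, g0, g1, rfl⟩ := idx j ⟨hj.1.le, hj.2.le⟩
    obtain ⟨e1, -, e3⟩ := hi i (by omega) (by omega)
    have w1 := width_pos h.bP (ang N s (i0 + i))
    have w2 := width_pos h.bQ (ang N s (i0 + i))
    refine ⟨max (hs P (ang N s (i0 + i)) - ρ * δ / 720)
      (max (-hs P (ang N s (i0 + i) + Real.pi)) (-hs Q (ang N s (i0 + i) + Real.pi))),
      max_lt (by linarith) (max_lt (by linarith) (by linarith)), fun c hc hc' => ?_⟩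
    rw [max_lt_iff, max_lt_iff] at hc
    rw [← vol_interior_eq h.bP hc.2.1 hc', ← vol_interior_eq h.bQ hc.2.2 (by rwa [← e1])]
    exact e3 c hc.1
  have st : ∀ m : ℤ, ang N s m < ang N s (m + 20) := fun m => h.mono (by omega)
  have two : ∀ m : ℤ, ∃ p ∈ range (ang N s), ∃ q ∈ range (ang N s),
      p ∈ Icc (ang N s m) (ang N s (m + 20)) ∧ q ∈ Icc (ang N s m) (ang N s (m + 20)) ∧ p < q :=
    fun m => ⟨_, ⟨m, rfl⟩, _, ⟨m + 20, rfl⟩, ⟨le_refl _, (st m).le⟩, ⟨(st m).le, le_refl _⟩, st m⟩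
  obtain ⟨u, v, a', b', Ua', Ub', huv, F', hu, hv, hcl⟩ := F2.clean hvis
    (c1 := ang N s (i0 + 20)) (c2 := ang N s (i0 + 20 + 20)) (c3 := ang N s (i0 + 60))
    (c4 := ang N s (i0 + 60 + 20)) (c5 := ang N s (i0 + 100)) (c6 := ang N s (i0 + 100 + 20))
    (h.mono (by omega)) (h.mono (by omega)) (h.mono (by omega)) (h.mono (by omega))
    (h.mono (by omega)) (h.mono (by omega)) (h.mono (by omega)) (two _) (two _)
  obtain ⟨m, hm0, hm1, rfl, rfl⟩ : ∃ m : ℤ, 0 ≤ m ∧ m ≤ 144 ∧ u = ang N s (i0 + m) ∧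
      v = ang N s (i0 + m + 20) := by
    rcases huv with ⟨rfl, rfl⟩ | ⟨rfl, rfl⟩ | ⟨rfl, rfl⟩
    · exact ⟨20, by norm_num, by norm_num, rfl, rfl⟩
    · exact ⟨60, by norm_num, by norm_num, rfl, rfl⟩
    · exact ⟨100, by norm_num, by norm_num, rfl, rfl⟩
  have hG : ∀ θ ∈ (Finset.range 21).image (fun k : ℕ => ang N s (i0 + m + k)),
      ∃ i : ℤ, 0 ≤ i ∧ i ≤ 166 ∧ m ≤ i ∧ i ≤ m + 20 ∧ θ = ang N s (i0 + i) := by
    intro θ hθ
    obtain ⟨k, hk, rfl⟩ := Finset.mem_image.1 hθ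
    rw [Finset.mem_range] at hk
    exact ⟨m + k, by omega, by omega, by omega, by omega, by rw [add_assoc]⟩
  refine uc F F' h.hPK h.hQL
    (G := (Finset.range 21).image (fun k : ℕ => ang N s (i0 + m + k))) ?_ ?_ ?_ ?_ ?_ ?_
  · rw [Finset.card_image_of_injective, Finset.card_range]
    · norm_num
    · intro k k' hkk
      have := h.mono.injective hkk
      omega
  · intro θ hθ c
    obtain ⟨i, g0, g1, g2, g3, rfl⟩ := hG θ hθ
    exact h.hX _ c
  · intro θ hθ
    obtain ⟨i, g0, g1, g2, g3, rfl⟩ := hG θ hθ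
    have m1 : ang N s i0 ≤ ang N s (i0 + i) := hmono (by omega)
    have m2 : ang N s (i0 + i) ≤ ang N s (i0 + 166) := hmono (by omega)
    exact ⟨by linarith, by linarith⟩
  · intro θ hθ
    obtain ⟨i, g0, g1, g2, g3, rfl⟩ := hG θ hθ
    have m1 : ang N s (i0 + m) ≤ ang N s (i0 + i) := hmono (by omega)
    have m2 : ang N s (i0 + i) ≤ ang N s (i0 + m + 20) := hmono (by omega)
    exact ⟨by linarith, by linarith⟩
  · intro θ hθ
    obtain ⟨i, g0, g1, g2, g3, rfl⟩ := hG θ hθ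
    exact ⟨_, by linarith, (hi i g0 g1).2.1⟩
  · intro θ hθ
    obtain ⟨i, g0, g1, g2, g3, rfl⟩ := hG θ hθ
    exact hcl _ ⟨_, rfl⟩ ⟨hmono (by omega), hmono (by omega)⟩

end Pool.Agent.CRS
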